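import Mathlib
import Pool.Agent.Helper114.RMT

/-! # Riemann mapping and square roots by gluing -/

set_option autoImplicit false

open Set Metric Filter Topology
open Pool.Agent.Helper114.RMT

namespace Pool.Agent.R229.HN

/-- continuous square roots of zero free continuous functions exist -/
def CS (U : Set ℂ) : Prop :=
  ∀ u : ℂ → ℂ, ContinuousOn u U → (∀ z ∈ U, u z ≠ 0) →
    ∃ s : ℂ → ℂ, ContinuousOn s U ∧ ∀ z ∈ U, s z ^ 2 = u z

lemma CS_convex {U : Set ℂ} (hU : IsOpen U) (hc : Convex ℝ U) : CS U := by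
  intro u hu hne
  rcases U.eq_empty_or_nonempty with h | h
  · subst h
    exact ⟨fun _ => 0, by simp, by simp⟩
  · have hsc : IsSimplyConnected U := by
      have : ContractibleSpace U := hc.contractibleSpace h
      exact SimplyConnectedSpace.ofContractible U
    obtain ⟨s, h1, h2⟩ := Complex.exists_continuousOn_pow_eq hsc hU hu
      (by rintro ⟨z, hz, h0⟩; exact hne z hz h0) two_ne_zero
    exact ⟨s, h1, fun z _ => h2 z⟩

lemma CS_glue {ι : Type} {U₀ : Set ℂ} {V : ι → Set ℂ} (hU₀ : IsOpen U₀) (hV : ∀ i, IsOpen (V i))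
    (h0 : CS U₀) (hi : ∀ i, CS (V i)) (hdis : ∀ i j z, z ∈ V i → z ∈ V j → i = j)
    (hpre : ∀ i, IsPreconnected (U₀ ∩ V i)) : CS (U₀ ∪ ⋃ i, V i) := by
  classical
  intro u hu hne
  obtain ⟨s0, hs0c, hs0⟩ := h0 u (hu.mono subset_union_left) (fun z hz => hne z (Or.inl hz))
  have hVsub : ∀ i, V i ⊆ U₀ ∪ ⋃ i, V i := fun i z hz => Or.inr (mem_iUnion.mpr ⟨i, hz⟩)
  choose s hsc hs using fun i => hi i u (hu.mono (hVsub i)) (fun z hz => hne z (hVsub i hz))
  have hs0ne : ∀ z ∈ U₀, s0 z ≠ 0 := by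
    intro z hz h
    apply hne z (Or.inl hz)
    rw [← hs0 z hz, h]; ring
  -- signs
  have hsign : ∀ i, ∃ σ : ℂ, (σ = 1 ∨ σ = -1) ∧ ∀ z ∈ U₀ ∩ V i, σ * s i z = s0 z := by
    intro i
    have h1 := (hpre i).eq_or_eq_neg_of_sq_eq (f := s i) (g := s0)
      ((hsc i).mono inter_subset_right) (hs0c.mono inter_subset_left)
      (by
        intro z hz
        simp only [Pi.pow_apply]
        rw [hs i z hz.2, hs0 z hz.1])
      (fun {z} hz => hs0ne z hz.1)
    rcases h1 with h | h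
    · exact ⟨1, Or.inl rfl, fun z hz => by rw [one_mul]; exact h hz⟩
    · refine ⟨-1, Or.inr rfl, fun z hz => ?_⟩
      have := h hz
      rw [Pi.neg_apply] at this
      rw [this]; ring
  choose σ hσ1 hσ using hsign
  set S : ℂ → ℂ := fun z => if z ∈ U₀ then s0 z else
    if h : ∃ i, z ∈ V i then σ h.choose * s h.choose z else 0 with hS
  have hS0 : ∀ z ∈ U₀, S z = s0 z := fun z hz => by simp only [hS, if_pos hz]
  have hSi : ∀ i, ∀ z ∈ V i, S z = σ i * s i z := by
    intro i z hz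
    by_cases hz0 : z ∈ U₀
    · rw [hS0 z hz0, hσ i z ⟨hz0, hz⟩]
    · have h : ∃ i, z ∈ V i := ⟨i, hz⟩
      have h2 : h.choose = i := hdis _ _ z h.choose_spec hz
      simp only [hS, if_neg hz0, dif_pos h, h2]
  refine ⟨S, ?_, ?_⟩
  · rintro z (hz | hz)
    · apply ContinuousAt.continuousWithinAt
      have h1 : S =ᶠ[𝓝 z] s0 := by
        filter_upwards [hU₀.mem_nhds hz] with w hw using hS0 w hw
      exact (hs0c.continuousAt (hU₀.mem_nhds hz)).congr h1.symm
    · obtain ⟨i, hz⟩ := mem_iUnion.mp hz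
      apply ContinuousAt.continuousWithinAt
      have h1 : S =ᶠ[𝓝 z] fun w => σ i * s i w := by
        filter_upwards [(hV i).mem_nhds hz] with w hw using hSi i w hw
      exact (continuousAt_const.mul ((hsc i).continuousAt ((hV i).mem_nhds hz))).congr h1.symm
  · rintro z (hz | hz)
    · rw [hS0 z hz, hs0 z hz]
    · obtain ⟨i, hz⟩ := mem_iUnion.mp hz
      rw [hSi i z hz, mul_pow, hs i z hz]
      rcases hσ1 i with h | h
      · rw [h]; ring
      · rw [h]; ring

/-- A continuous square root of a holomorphic function is holomorphic. -/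
lemma CS_diff {U : Set ℂ} (hU : IsOpen U) (hCS : CS U) :
    ∀ u : ℂ → ℂ, DifferentiableOn ℂ u U → (∀ z ∈ U, u z ≠ 0) →
      ∃ s : ℂ → ℂ, DifferentiableOn ℂ s U ∧ ∀ z ∈ U, s z ^ 2 = u z := by
  intro u hu hne
  obtain ⟨s, hc, hs⟩ := hCS u hu.continuousOn hne
  refine ⟨s, fun z hz => DifferentiableAt.differentiableWithinAt ?_, hs⟩
  have hcz : ContinuousAt s z := hc.continuousAt (hU.mem_nhds hz)
  have hsz : s z ≠ 0 := by
    intro h
    apply hne z hz
    rw [← hs z hz, h]; ring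
  have hk : HasDerivAt u (deriv u z) z := (hu.differentiableAt (hU.mem_nhds hz)).hasDerivAt
  have : HasDerivAt s (deriv u z / (2 * s z)) z := by
    rw [hasDerivAt_iff_tendsto_slope] at hk ⊢
    have h1 : Tendsto (fun x => s x + s z) (𝓝[≠] z) (𝓝 (2 * s z)) := by
      have : Tendsto (fun x => s x + s z) (𝓝 z) (𝓝 (s z + s z)) :=
        hcz.tendsto.add tendsto_const_nhds
      rw [← two_mul] at this
      exact this.mono_left nhdsWithin_le_nhds
    have hne2 : (2 * s z) ≠ 0 := mul_ne_zero two_ne_zero hsz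
    have h2 := hk.div h1 hne2
    refine h2.congr' ?_
    have h3 : ∀ᶠ x in 𝓝[≠] z, s x + s z ≠ 0 := h1.eventually_ne hne2
    have h4 : ∀ᶠ x in 𝓝[≠] z, x ∈ U := mem_nhdsWithin_of_mem_nhds (hU.mem_nhds hz)
    filter_upwards [h3, h4, self_mem_nhdsWithin] with x hx hxU hxz
    have hxz' : x - z ≠ 0 := sub_ne_zero.2 hxz
    simp only [slope_def_field, Pi.div_apply]
    rw [← hs x hxU, ← hs z hz]
    field_simp
    ring
  exact this.differentiableAt

/-- Riemann mapping theorem for a subdomain of the upper half-plane with square roots. -/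
theorem riemann_upper {W : Set ℂ} (hWo : IsOpen W) (hWc : IsConnected W)
    (hWu : ∀ z ∈ W, 0 < z.im) (hCS : CS W) {z₀ : ℂ} (hz₀ : z₀ ∈ W) :
    ∃ ψ g : ℂ → ℂ, DifferentiableOn ℂ ψ W ∧ MapsTo ψ W (ball 0 1) ∧ ψ z₀ = 0 ∧
      DifferentiableOn ℂ g (ball 0 1) ∧ MapsTo g (ball 0 1) W ∧ ∀ z ∈ W, g (ψ z) = z := by
  have hUp : IsPreconnected W := hWc.isPreconnected
  have hsq := CS_diff hWo hCS
  have hden : ∀ z ∈ W, z + 10 * Complex.I ≠ 0 := by
    intro z hz h
    have h1 := hWu z hz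
    have h2 := congrArg Complex.im h
    simp at h2
    linarith
  have hnorm : ∀ z ∈ W, ‖(z + 10 * Complex.I)⁻¹‖ ≤ 1 / 10 := by
    intro z hz
    rw [norm_inv, one_div]
    apply inv_anti₀ (by norm_num)
    have h1 := Complex.abs_im_le_norm (z + 10 * Complex.I)
    have h2 := hWu z hz
    have h3 : (z + 10 * Complex.I).im = z.im + 10 := by simp
    rw [h3, abs_of_pos (by linarith)] at h1
    linarith
  set k : ℂ → ℂ := fun z => (z + 10 * Complex.I)⁻¹ - (z₀ + 10 * Complex.I)⁻¹ with hk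
  have hder : ∀ z ∈ W, HasDerivAt k (-1 / (z + 10 * Complex.I) ^ 2) z := by
    intro z hz
    have h1 : HasDerivAt (fun z : ℂ => z + 10 * Complex.I) 1 z := (hasDerivAt_id z).add_const _
    exact (h1.inv (hden z hz)).sub_const _
  have hkC : Comp W z₀ k := by
    refine ⟨fun z hz => (hder z hz).differentiableAt.differentiableWithinAt, ?_, ?_, ?_,
      by simp [hk]⟩
    · intro z hz
      rw [mem_ball_zero_iff]
      have h1 := hnorm z hz
      have h2 := hnorm z₀ hz₀
      have h3 := norm_sub_le (z + 10 * Complex.I)⁻¹ (z₀ + 10 * Complex.I)⁻¹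
      calc ‖k z‖ ≤ _ := h3
        _ < 1 := by linarith
    · intro z hz w hw h
      simp only [hk] at h
      have h1 : (z + 10 * Complex.I)⁻¹ = (w + 10 * Complex.I)⁻¹ := by linear_combination h
      have h2 := inv_injective h1
      linear_combination h2
    · intro z hz
      rw [(hder z hz).deriv]
      exact div_ne_zero (by norm_num) (pow_ne_zero _ (hden z hz))
  set S : Set ℝ := {x | ∃ φ, Comp W z₀ φ ∧ ‖deriv φ z₀‖ = x} with hS
  have hSne : S.Nonempty := ⟨_, _, hkC, rfl⟩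
  obtain ⟨R, hR, hRU⟩ := Metric.isOpen_iff.1 hWo z₀ hz₀
  have hSb : BddAbove S := by
    refine ⟨1 / R, ?_⟩
    rintro x ⟨φ, hφ, rfl⟩
    apply Complex.norm_deriv_le_div_of_mapsTo_ball (hφ.1.mono hRU) _ hR
    intro z hz
    rw [hφ.2.2.2.2]
    exact ball_subset_closedBall (hφ.2.1 (hRU hz))
  obtain ⟨u, hu1, hu2, hu3⟩ := exists_seq_tendsto_sSup hSne hSb
  choose F hF hFu using hu3
  have hMpos : 0 < sSup S := by
    refine lt_of_lt_of_le ?_ (le_csSup hSb ⟨_, hkC, rfl⟩)
    exact norm_pos_iff.2 (hkC.2.2.2.1 z₀ hz₀)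
  obtain ⟨f, hf, hfM⟩ := limit_comp hWo hUp hz₀ hF hMpos (by simpa only [hFu] using hu2)
  have hsurj : SurjOn f W (ball 0 1) := by
    intro c hc
    by_contra hcon
    obtain ⟨ψ, hψ, hlt'⟩ := improve hWo hsq hz₀ hf (by simpa using hc) (c := c)
      (fun z hz h => hcon ⟨z, hz, h⟩)
    have : ‖deriv ψ z₀‖ ≤ sSup S := le_csSup hSb ⟨ψ, hψ, rfl⟩
    linarith
  have hleft : ∀ z ∈ W, Function.invFunOn f W (f z) = z := fun z hz =>
    hf.2.2.1.leftInvOn_invFunOn hz
  have hstrict : ∀ w ∈ W, HasStrictDerivAt (Function.invFunOn f W) (deriv f w)⁻¹ (f w) := by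
    intro w hw
    have hs : HasStrictDerivAt f (deriv f w) w :=
      ((hf.1.analyticAt (hWo.mem_nhds hw)).hasStrictDerivAt)
    apply hs.to_local_left_inverse (hf.2.2.2.1 w hw)
    filter_upwards [hWo.mem_nhds hw] with x hx
    exact hleft x hx
  refine ⟨f, Function.invFunOn f W, hf.1, hf.2.1, hf.2.2.2.2, ?_, ?_, hleft⟩
  · intro z hz
    obtain ⟨w, hw, rfl⟩ := hsurj hz
    exact (hstrict w hw).hasDerivAt.differentiableAt.differentiableWithinAt
  · intro z hz
    obtain ⟨w, hw, rfl⟩ := hsurj hz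
    rw [hleft w hw]; exact hw

end Pool.Agent.R229.HN
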