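import Mathlib

/-! # Hardy and Bergman numbers: definitions -/

set_option autoImplicit false

open Set Metric MeasureTheory
open scoped ENNReal

namespace Pool.Agent.R229.HN

/-- The integral means of order `p` of `f` on the circles `|z| = r`, `0 < r < 1`, are bounded
(so a holomorphic `f` on the unit disc lies in the Hardy space `H^p`). -/
def InHardy (p : ℝ) (f : ℂ → ℂ) : Prop :=
  ∃ C : ℝ, ∀ r : ℝ, 0 < r → r < 1 →
    ∫ θ in (0 : ℝ)..(2 * Real.pi), ‖f (r * Complex.exp (θ * Complex.I))‖ ^ p ≤ C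

/-- The area integral of `|f|^p (1 - |z|)^α` over the unit disc is finite
(so a holomorphic `f` on the unit disc lies in the weighted Bergman space `A^p_α`). -/
def InBergman (p α : ℝ) (f : ℂ → ℂ) : Prop :=
  IntegrableOn (fun z : ℂ => ‖f z‖ ^ p * (1 - ‖z‖) ^ α) (ball 0 1)

/-- `𝔥(f)` -/
noncomputable def hardyF (f : ℂ → ℂ) : ℝ≥0∞ :=
  sSup ({0} ∪ {x | ∃ p : ℝ, 0 < p ∧ InHardy p f ∧ x = ENNReal.ofReal p})

/-- `𝔟(f)` -/
noncomputable def bergmanF (f : ℂ → ℂ) : ℝ≥0∞ :=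
  sSup ({0} ∪ {x | ∃ p α : ℝ, 0 < p ∧ -1 < α ∧ InBergman p α f ∧
    x = ENNReal.ofReal (p / (α + 2))})

/-- `𝔟_α(f)` -/
noncomputable def bergmanAF (α : ℝ) (f : ℂ → ℂ) : ℝ≥0∞ :=
  sSup ({0} ∪ {x | ∃ p : ℝ, 0 < p ∧ InBergman p α f ∧ x = ENNReal.ofReal p})

/-- The holomorphic maps from the unit disc to `D`. -/
def Hol (D : Set ℂ) : Set (ℂ → ℂ) :=
  {f | DifferentiableOn ℂ f (ball 0 1) ∧ MapsTo f (ball 0 1) D}

/-- The Hardy number of `D`. -/
noncomputable def hardyNumber (D : Set ℂ) : ℝ≥0∞ := sInf (hardyF '' Hol D)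

/-- The Bergman number of `D`. -/
noncomputable def bergmanNumber (D : Set ℂ) : ℝ≥0∞ := sInf (bergmanF '' Hol D)

/-- The weighted Bergman number of `D`. -/
noncomputable def bergmanNumberA (α : ℝ) (D : Set ℂ) : ℝ≥0∞ := sInf (bergmanAF α '' Hol D)

end Pool.Agent.R229.HN
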