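import Mathlib
import Pool.Agent.Bl169.LogMax

/-! # Super mean values on a disc -/

set_option autoImplicit false

open Set Metric Filter Topology MeasureTheory

namespace Pool.Agent.R229.HN

lemma circleAverage_normSq (c : ℂ) (s : ℝ) :
    Real.circleAverage (fun z => ‖z‖ ^ 2) c s = ‖c‖ ^ 2 + s ^ 2 := by
  set Q : ℂ → ℂ := fun z => ((s ^ 2 - ‖c‖ ^ 2 : ℝ) : ℂ) + 2 * ((starRingEnd ℂ) c * z) with hQ
  have hQd : Differentiable ℂ Q := by
    simp only [hQ]
    fun_prop
  have h1 : EqOn (fun z : ℂ => ‖z‖ ^ 2) (fun z => (Q z).re) (sphere c |s|) := by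
    intro z hz
    rw [mem_sphere, dist_eq_norm] at hz
    have h2 : ‖z - c‖ ^ 2 = s ^ 2 := by rw [hz, sq_abs]
    rw [← Complex.normSq_eq_norm_sq, Complex.normSq_sub, Complex.normSq_eq_norm_sq,
      Complex.normSq_eq_norm_sq] at h2
    have h3 : (Q z).re = (s ^ 2 - ‖c‖ ^ 2) + 2 * ((starRingEnd ℂ) c * z).re := by
      simp only [hQ, Complex.add_re, Complex.ofReal_re, Complex.mul_re, Complex.re_ofNat,
        Complex.im_ofNat, zero_mul, sub_zero]
    have h4 : ((starRingEnd ℂ) c * z).re = (z * (starRingEnd ℂ) c).re := by rw [mul_comm]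
    simp only
    rw [h3, h4]
    linarith
  rw [Real.circleAverage_congr_sphere h1, Pool.Agent.Bl169.log_norm_le_re hQd]
  simp only [hQ, Complex.add_re, Complex.ofReal_re, Complex.mul_re, Complex.re_ofNat,
    Complex.im_ofNat, zero_mul, sub_zero, Complex.conj_re, Complex.conj_im]
  have : ‖c‖ ^ 2 = c.re * c.re + c.im * c.im := by
    rw [← Complex.normSq_eq_norm_sq, Complex.normSq_apply]
  rw [this]
  ring

lemma min_principle {r : ℝ} (hr : 0 < r) {w : ℂ → ℝ} (hc : ContinuousOn w (closedBall 0 r))
    (hs : ∀ z ∈ ball (0 : ℂ) r, ∃ e > 0, ∀ s, 0 < s → s < e → Real.circleAverage w z s ≤ w z)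
    (hb : ∀ z ∈ sphere (0 : ℂ) r, 0 ≤ w z) : 0 ≤ w 0 := by
  by_contra hneg
  push Not at hneg
  set η : ℝ := -w 0 / (2 * r ^ 2) with hη
  have hη0 : 0 < η := div_pos (by linarith) (by positivity)
  have hηr : η * r ^ 2 = -w 0 / 2 := by rw [hη]; field_simp
  set w' : ℂ → ℝ := fun z => w z - η * ‖z‖ ^ 2 with hw'
  have hc' : ContinuousOn w' (closedBall 0 r) := hc.sub (by fun_prop)
  obtain ⟨z, hz, hmin⟩ := (isCompact_closedBall (0 : ℂ) r).exists_isMinOn
    ⟨0, mem_closedBall_self hr.le⟩ hc'
  have h0 : w' z ≤ w 0 := by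
    have h1 := hmin (mem_closedBall_self hr.le)
    simp only [mem_ofPred_eq] at h1
    refine h1.trans ?_
    simp [hw']
  have hzb : z ∈ ball (0 : ℂ) r := by
    rw [mem_ball]
    refine lt_of_le_of_ne hz fun h => ?_
    have h1 := hb z h
    have h2 : ‖z‖ = r := by rwa [dist_zero_right] at h
    have h3 : w' z = w z + w 0 / 2 := by
      simp only [hw']
      rw [h2, hηr]; ring
    linarith
  obtain ⟨e, he, hse⟩ := hs z hzb
  rw [mem_ball, dist_zero_right] at hzb
  set s : ℝ := min (e / 2) (r - ‖z‖) with hsdef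
  have hs0 : 0 < s := lt_min (by positivity) (by linarith)
  have hs1 : s < e := lt_of_le_of_lt (min_le_left _ _) (by linarith)
  have hs2 : s ≤ r - ‖z‖ := min_le_right _ _
  have hsub : sphere z |s| ⊆ closedBall 0 r := by
    intro x hx
    rw [abs_of_pos hs0, mem_sphere, dist_eq_norm] at hx
    rw [mem_closedBall, dist_zero_right]
    calc ‖x‖ = ‖(x - z) + z‖ := by ring_nf
      _ ≤ ‖x - z‖ + ‖z‖ := norm_add_le _ _
      _ ≤ r := by rw [hx]; linarith
  have hi1 : CircleIntegrable w z s := (hc.mono hsub).circleIntegrable'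
  have hi2 : CircleIntegrable (fun z : ℂ => η * ‖z‖ ^ 2) z s :=
    (Continuous.continuousOn (by fun_prop)).circleIntegrable'
  have havg : Real.circleAverage w' z s = Real.circleAverage w z s - η * (‖z‖ ^ 2 + s ^ 2) := by
    have h1 : w' = w - fun z : ℂ => η * ‖z‖ ^ 2 := rfl
    rw [h1, Real.circleAverage_sub hi1 hi2]
    have h2 : (fun z : ℂ => η * ‖z‖ ^ 2) = fun z : ℂ => η • (fun z : ℂ => ‖z‖ ^ 2) z := by
      funext z; rw [smul_eq_mul]
    rw [h2, Real.circleAverage_fun_smul, circleAverage_normSq, smul_eq_mul]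
  have hlow : w' z ≤ Real.circleAverage w' z s := by
    have h1 : Real.circleAverage (fun _ : ℂ => w' z) z s = w' z := Real.circleAverage_const _ _ _
    rw [← h1]
    apply Real.circleAverage_mono
    · exact (continuous_const.continuousOn).circleIntegrable'
    · exact (hc'.mono hsub).circleIntegrable'
    · intro x hx
      exact hmin (hsub hx)
  have h2 := hse s hs0 hs1
  have h3 : w' z = w z - η * ‖z‖ ^ 2 := rfl
  have h4 : 0 < η * s ^ 2 := by positivity
  rw [havg] at hlow
  nlinarith

/-- The super mean value inequality for a big circle follows from the local ones. -/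
theorem supermean {r : ℝ} (hr : 0 < r) {v : ℂ → ℝ} (hc : ContinuousOn v (closedBall 0 r))
    (hs : ∀ z ∈ ball (0 : ℂ) r, ∃ e > 0, ∀ s, 0 < s → s < e → Real.circleAverage v z s ≤ v z) :
    Real.circleAverage v 0 r ≤ v 0 := by
  apply le_of_forall_pos_le_add
  intro ε hε
  have hrc : (r : ℂ) ≠ 0 := by exact_mod_cast hr.ne'
  -- extend continuously
  set g : ℂ → ℝ := fun ζ => v ((r / max 1 ‖ζ‖ : ℝ) * ζ) with hg
  have hgc : Continuous g := by
    rw [hg, ← continuousOn_univ]
    apply hc.comp (t := closedBall (0 : ℂ) r) (s := univ)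
      (f := fun ζ : ℂ => ((r / max 1 ‖ζ‖ : ℝ) : ℂ) * ζ)
    · apply Continuous.continuousOn
      have h1 : Continuous fun ζ : ℂ => r / max 1 ‖ζ‖ := by
        apply Continuous.div continuous_const (by fun_prop)
        intro ζ
        have : 0 < max 1 ‖ζ‖ := lt_of_lt_of_le one_pos (le_max_left _ _)
        exact this.ne'
      exact (Complex.continuous_ofReal.comp h1).mul continuous_id
    · intro ζ _
      have h1 : 0 < max 1 ‖ζ‖ := lt_of_lt_of_le one_pos (le_max_left _ _)
      rw [mem_closedBall, dist_zero_right, norm_mul, Complex.norm_real, Real.norm_of_nonneg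
        (by positivity), div_mul_eq_mul_div, div_le_iff₀ h1]
      exact mul_le_mul_of_nonneg_left (le_max_right _ _) hr.le
  obtain ⟨P, hP⟩ := Pool.Agent.Bl169.log_norm_le_poly hgc (half_pos hε)
  set Q : ℂ → ℂ := fun z => P.eval (z / r) with hQ
  have hQd : Differentiable ℂ Q := by
    have h1 : Q = (fun z => P.eval z) ∘ (fun z => z / (r : ℂ)) := rfl
    rw [h1]
    exact P.differentiable.comp (by fun_prop)
  have hclose : ∀ z ∈ sphere (0 : ℂ) r, |v z - (Q z).re| < ε / 2 := by
    intro z hz
    rw [mem_sphere, dist_zero_right] at hz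
    have h1 : ‖z / r‖ = 1 := by
      rw [norm_div, hz, Complex.norm_real, Real.norm_of_nonneg hr.le, div_self hr.ne']
    have h2 := hP (z / r) h1
    have h3 : g (z / r) = v z := by
      simp only [hg]
      rw [h1, max_self, div_one]
      congr 1
      field_simp
    rwa [h3] at h2
  have hQc : Continuous fun z => (Q z).re := Complex.continuous_re.comp hQd.continuous
  set w : ℂ → ℝ := fun z => v z - ((Q z).re - ε / 2) with hw
  have hwc : ContinuousOn w (closedBall 0 r) := hc.sub (hQc.sub continuous_const).continuousOn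
  have h0 := min_principle hr hwc (by
    intro z hz
    obtain ⟨e, he, hse⟩ := hs z hz
    rw [mem_ball, dist_zero_right] at hz
    refine ⟨min e (r - ‖z‖), lt_min he (by linarith), fun s hs0 hs1 => ?_⟩
    have hs2 : s < e := lt_of_lt_of_le hs1 (min_le_left _ _)
    have hs3 : s < r - ‖z‖ := lt_of_lt_of_le hs1 (min_le_right _ _)
    have hsub : sphere z |s| ⊆ closedBall 0 r := by
      intro x hx
      rw [abs_of_pos hs0, mem_sphere, dist_eq_norm] at hx
      rw [mem_closedBall, dist_zero_right]
      calc ‖x‖ = ‖(x - z) + z‖ := by ring_nf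
        _ ≤ ‖x - z‖ + ‖z‖ := norm_add_le _ _
        _ ≤ r := by rw [hx]; linarith
    have h1 : w = v - fun z => ((Q z).re - ε / 2) := rfl
    have hi1 : CircleIntegrable v z s := (hc.mono hsub).circleIntegrable'
    have hi2 : CircleIntegrable (fun z => (Q z).re - ε / 2) z s :=
      ((hQc.sub continuous_const).continuousOn).circleIntegrable'
    have h2 : Real.circleAverage (fun z => (Q z).re - ε / 2) z s = (Q z).re - ε / 2 := by
      have h3 : (fun z => (Q z).re - ε / 2) = fun z => ((fun z => Q z - ((ε / 2 : ℝ) : ℂ)) z).re := by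
        funext z; simp
      rw [h3, Pool.Agent.Bl169.log_norm_le_re (hQd.sub_const _)]
      simp
    have h4 : Real.circleAverage w z s = Real.circleAverage v z s -
        Real.circleAverage (fun z => (Q z).re - ε / 2) z s := by
      rw [h1]; exact Real.circleAverage_sub hi1 hi2
    rw [h4, h2]
    have := hse s hs0 hs2
    simp only [hw]
    linarith) (by
    intro z hz
    have := (abs_lt.mp (hclose z hz)).1
    simp only [hw]
    linarith)
  have hsub : sphere (0 : ℂ) |r| ⊆ closedBall 0 r := by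
    rw [abs_of_pos hr]; exact sphere_subset_closedBall
  have h5 : Real.circleAverage v 0 r ≤ Real.circleAverage (fun z => (Q z).re + ε / 2) 0 r := by
    apply Real.circleAverage_mono (hc.mono hsub).circleIntegrable'
      ((hQc.add continuous_const).continuousOn).circleIntegrable'
    intro z hz
    rw [abs_of_pos hr] at hz
    have := (abs_lt.mp (hclose z hz)).2
    change v z ≤ (Q z).re + ε / 2
    linarith
  have h6 : Real.circleAverage (fun z => (Q z).re + ε / 2) 0 r = (Q 0).re + ε / 2 := by
    have h3 : (fun z => (Q z).re + ε / 2) = fun z => ((fun z => Q z + ((ε / 2 : ℝ) : ℂ)) z).re := by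
      funext z; simp
    rw [h3, Pool.Agent.Bl169.log_norm_le_re (hQd.add_const _)]
    simp
  rw [h6] at h5
  simp only [hw] at h0
  linarith

end Pool.Agent.R229.HN
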