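import Mathlib
import Pool.Agent.R229.HN.RM

/-! # The tentacle domains -/

set_option autoImplicit false

open Set Metric Filter Topology

namespace Pool.Agent.R229.HN

/-- half width of the `k`-th corridor -/
noncomputable def hw (k : ℕ) : ℝ := 1 / 8 * (1 / 2) ^ k
/-- height of the centre line of the `k`-th corridor -/
noncomputable def mid (k : ℕ) : ℝ := 3 - 7 * hw k
/-- lower side of the `k`-th corridor -/
noncomputable def lo (k : ℕ) : ℝ := 3 - 8 * hw k
/-- upper side of the `k`-th corridor -/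
noncomputable def hi (k : ℕ) : ℝ := 3 - 6 * hw k

lemma hw_pos (k : ℕ) : 0 < hw k := by unfold hw; positivity

lemma hw_le (k : ℕ) : hw k ≤ 1 / 8 := by
  unfold hw
  have : (1 / 2 : ℝ) ^ k ≤ 1 := pow_le_one₀ (by norm_num) (by norm_num)
  linarith

lemma hw_succ (k : ℕ) : hw (k + 1) = hw k / 2 := by
  unfold hw; rw [pow_succ]; ring

lemma hw_anti {j k : ℕ} (h : j < k) : hw k ≤ hw j / 2 := by
  rw [← hw_succ]
  unfold hw
  have : (1 / 2 : ℝ) ^ k ≤ (1 / 2) ^ (j + 1) := pow_le_pow_of_le_one (by norm_num) (by norm_num) h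
  linarith

lemma hi_lt_lo {j k : ℕ} (h : j < k) : hi j < lo k := by
  have h1 := hw_anti h
  have h2 := hw_pos j
  unfold hi lo
  linarith

lemma two_le_lo (k : ℕ) : 2 ≤ lo k := by
  have := hw_le k
  unfold lo; linarith

lemma lo_lt_hi (k : ℕ) : lo k < hi k := by
  have := hw_pos k
  unfold lo hi; linarith

lemma hi_lt_three (k : ℕ) : hi k < 3 := by
  have := hw_pos k
  unfold hi; linarith

lemma hi_ge (k : ℕ) : 9 / 4 ≤ hi k := by
  have := hw_le k
  unfold hi; linarith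

lemma hi_mono {j k : ℕ} (h : j ≤ k) : hi j ≤ hi k := by
  rcases h.eq_or_lt with rfl | h
  · exact le_rfl
  · exact ((hi_lt_lo h).trans (lo_lt_hi k)).le

/-- integer positions -/
def XN : ℕ → ℕ
  | 0 => 1
  | k + 1 => (XN k + 10) * 2 ^ (k + 7)

/-- positions -/
noncomputable def X (k : ℕ) : ℝ := (XN k : ℝ)

lemma X_succ (k : ℕ) : X (k + 1) = (X k + 10) * 2 ^ (k + 7) := by
  unfold X; rw [XN]; push_cast; ring

lemma X_ge_one (k : ℕ) : 1 ≤ X k := by
  induction k with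
  | zero => simp [X, XN]
  | succ n ih =>
    rw [X_succ]
    have : (1 : ℝ) ≤ 2 ^ (n + 7) := one_le_pow₀ (by norm_num)
    nlinarith

lemma X_step (k : ℕ) : X k + 10 ≤ X (k + 1) := by
  rw [X_succ]
  have h1 := X_ge_one k
  have : (1 : ℝ) ≤ 2 ^ (k + 7) := one_le_pow₀ (by norm_num)
  nlinarith

lemma X_lt {j k : ℕ} (h : j < k) : X (j + 1) ≤ X k := by
  have hmono : Monotone X := monotone_nat_of_le_succ fun n => by linarith [X_step n]
  exact hmono h

/-- block -/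
def Q (k : ℕ) : Set ℂ := {w | X k < w.re ∧ w.re < X (k + 1) ∧ 0 < w.im ∧ w.im < hi k}
/-- corridor -/
def A (l : ℕ → ℝ) (k : ℕ) : Set ℂ := {w | -(l k) - 1 < w.re ∧ w.re < X k + 2 ∧ lo k < w.im ∧ w.im < hi k}
/-- room -/
def R (l : ℕ → ℝ) (k : ℕ) : Set ℂ := {w | w.re < -(l k) ∧ 0 < w.im ∧ w.im < hi k}
/-- the domain in the logarithmic plane -/
def Om (l : ℕ → ℝ) : Set ℂ := ⋃ k, (R l k ∪ (A l k ∪ Q k))

lemma isOpen_Q (k : ℕ) : IsOpen (Q k) := by
  have h1 : IsOpen {w : ℂ | X k < w.re} := isOpen_lt continuous_const Complex.continuous_re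
  have h2 : IsOpen {w : ℂ | w.re < X (k + 1)} := isOpen_lt Complex.continuous_re continuous_const
  have h3 : IsOpen {w : ℂ | 0 < w.im} := isOpen_lt continuous_const Complex.continuous_im
  have h4 : IsOpen {w : ℂ | w.im < hi k} := isOpen_lt Complex.continuous_im continuous_const
  exact h1.inter (h2.inter (h3.inter h4))

lemma isOpen_A (l : ℕ → ℝ) (k : ℕ) : IsOpen (A l k) := by
  have h1 : IsOpen {w : ℂ | -(l k) - 1 < w.re} := isOpen_lt continuous_const Complex.continuous_re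
  have h2 : IsOpen {w : ℂ | w.re < X k + 2} := isOpen_lt Complex.continuous_re continuous_const
  have h3 : IsOpen {w : ℂ | lo k < w.im} := isOpen_lt continuous_const Complex.continuous_im
  have h4 : IsOpen {w : ℂ | w.im < hi k} := isOpen_lt Complex.continuous_im continuous_const
  exact h1.inter (h2.inter (h3.inter h4))

lemma isOpen_R (l : ℕ → ℝ) (k : ℕ) : IsOpen (R l k) := by
  have h2 : IsOpen {w : ℂ | w.re < -(l k)} := isOpen_lt Complex.continuous_re continuous_const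
  have h3 : IsOpen {w : ℂ | 0 < w.im} := isOpen_lt continuous_const Complex.continuous_im
  have h4 : IsOpen {w : ℂ | w.im < hi k} := isOpen_lt Complex.continuous_im continuous_const
  exact h2.inter (h3.inter h4)

lemma isOpen_Om (l : ℕ → ℝ) : IsOpen (Om l) :=
  isOpen_iUnion fun k => (isOpen_R l k).union ((isOpen_A l k).union (isOpen_Q k))

lemma rect_convex (a b c d : ℝ) : Convex ℝ {w : ℂ | a < w.re ∧ w.re < b ∧ c < w.im ∧ w.im < d} := by
  have h1 : Convex ℝ {w : ℂ | a < w.re} := convex_halfSpace_re_gt a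
  have h2 : Convex ℝ {w : ℂ | w.re < b} := convex_halfSpace_re_lt b
  have h3 : Convex ℝ {w : ℂ | c < w.im} := convex_halfSpace_im_gt c
  have h4 : Convex ℝ {w : ℂ | w.im < d} := convex_halfSpace_im_lt d
  exact h1.inter (h2.inter (h3.inter h4))

lemma convex_Q (k : ℕ) : Convex ℝ (Q k) := rect_convex _ _ _ _
lemma convex_A (l : ℕ → ℝ) (k : ℕ) : Convex ℝ (A l k) := rect_convex _ _ _ _
lemma convex_R (l : ℕ → ℝ) (k : ℕ) : Convex ℝ (R l k) :=
  (convex_halfSpace_re_lt _).inter ((convex_halfSpace_im_gt _).inter (convex_halfSpace_im_lt _))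

lemma Om_im {l : ℕ → ℝ} {w : ℂ} (hw : w ∈ Om l) : 0 < w.im ∧ w.im < 3 := by
  obtain ⟨k, hw⟩ := mem_iUnion.mp hw
  have h1 := hi_lt_three k
  have h2 := two_le_lo k
  rcases hw with ⟨_, h3, h4⟩ | ⟨_, _, h3, h4⟩ | ⟨_, _, h3, h4⟩
  · exact ⟨h3, h4.trans h1⟩
  · exact ⟨by linarith, h4.trans h1⟩
  · exact ⟨h3, h4.trans h1⟩

lemma tent_disj {l : ℕ → ℝ} {i j : ℕ} {z : ℂ} (h1 : z ∈ A l i ∪ Q i) (h2 : z ∈ A l j ∪ Q j) :
    i = j := by
  have key : ∀ i j : ℕ, i < j → z ∈ A l i ∪ Q i → z ∈ A l j ∪ Q j → False := by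
    intro i j hij h1 h2
    have e1 := hi_lt_lo hij
    have e2 := X_lt hij
    have e3 := X_step i
    rcases h1 with ⟨_, a2, a3, a4⟩ | ⟨a1, a2, a3, a4⟩ <;>
    rcases h2 with ⟨_, b2, b3, b4⟩ | ⟨b1, b2, b3, b4⟩ <;> linarith
  rcases lt_trichotomy i j with h | h | h
  · exact (key i j h h1 h2).elim
  · exact h
  · exact (key j i h h2 h1).elim

/-- The piece of index `k` is connected. -/
lemma piece_conn {l : ℕ → ℝ} (hl : ∀ k, 0 ≤ l k) (k : ℕ) :
    IsConnected (R l k ∪ (A l k ∪ Q k)) := by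
  have e1 := lo_lt_hi k
  have e2 := two_le_lo k
  have e3 := X_step k
  have e4 := X_ge_one k
  have e5 := hl k
  set c : ℝ := (lo k + hi k) / 2 with hc
  have p1 : (⟨-(l k) - 1 / 2, c⟩ : ℂ) ∈ R l k := by
    refine ⟨?_, ?_, ?_⟩ <;> simp only <;> linarith
  have p2 : (⟨-(l k) - 1 / 2, c⟩ : ℂ) ∈ A l k := by
    refine ⟨?_, ?_, ?_, ?_⟩ <;> simp only <;> linarith
  have p3 : (⟨X k + 1, c⟩ : ℂ) ∈ A l k := by
    refine ⟨?_, ?_, ?_, ?_⟩ <;> simp only <;> linarith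
  have p4 : (⟨X k + 1, c⟩ : ℂ) ∈ Q k := by
    refine ⟨?_, ?_, ?_, ?_⟩ <;> simp only <;> linarith
  have hR : IsConnected (R l k) := (convex_R l k).isConnected ⟨_, p1⟩
  have hA : IsConnected (A l k) := (convex_A l k).isConnected ⟨_, p2⟩
  have hQ : IsConnected (Q k) := (convex_Q k).isConnected ⟨_, p4⟩
  exact hR.union ⟨_, p1, Or.inl p2⟩ (hA.union ⟨_, p3, p4⟩ hQ)

lemma conn_Om {l : ℕ → ℝ} (hl : ∀ k, 0 ≤ l k) : IsConnected (Om l) := by
  apply IsConnected.iUnion_of_chain (piece_conn hl)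
  intro k
  refine ⟨⟨-(max (l k) (l (k + 1))) - 1, 1⟩, Or.inl ⟨?_, ?_, ?_⟩, Or.inl ⟨?_, ?_, ?_⟩⟩
  · have := le_max_left (l k) (l (k + 1))
    simp only; linarith
  · norm_num
  · have := hi_ge k
    simp only; linarith
  · have := le_max_right (l k) (l (k + 1))
    simp only [Nat.succ_eq_succ, Nat.succ_eq_add_one]; linarith
  · norm_num
  · have := hi_ge (k + 1)
    simp only [Nat.succ_eq_succ, Nat.succ_eq_add_one]; linarith

/-- The part in the right half-plane does not depend on the lengths. -/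
lemma Om_right {l l' : ℕ → ℝ} (hl : ∀ k, 0 ≤ l k) (hl' : ∀ k, 0 ≤ l' k) {w : ℂ} (h0 : 0 < w.re)
    (hw : w ∈ Om l) : w ∈ Om l' := by
  obtain ⟨k, hw⟩ := mem_iUnion.mp hw
  apply mem_iUnion.mpr
  refine ⟨k, ?_⟩
  have e1 := hl k
  have e2 := hl' k
  rcases hw with ⟨h3, _, _⟩ | ⟨_, h4, h5, h6⟩ | h
  · linarith
  · exact Or.inr (Or.inl ⟨by linarith, h4, h5, h6⟩)
  · exact Or.inr (Or.inr h)

/-- The half strip. -/
lemma iUnion_R0 : (⋃ k, R (fun _ => 0) k) = {w : ℂ | w.re < 0 ∧ 0 < w.im ∧ w.im < 3} := by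
  ext w
  constructor
  · intro h
    obtain ⟨k, h1, h2, h3⟩ := mem_iUnion.mp h
    exact ⟨by simpa using h1, h2, h3.trans (hi_lt_three k)⟩
  · rintro ⟨h1, h2, h3⟩
    obtain ⟨k, hk⟩ := exists_pow_lt_of_lt_one (show 0 < (3 - w.im) / 6 by linarith)
      (show (1 / 2 : ℝ) < 1 by norm_num)
    apply mem_iUnion.mpr
    refine ⟨k, by simpa using h1, h2, ?_⟩
    unfold hi hw
    have : 0 < (1 / 2 : ℝ) ^ k := by positivity
    linarith

lemma CS_Om0 : CS (Om (fun _ => 0)) := by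
  have h1 : Om (fun _ => 0) = {w : ℂ | w.re < 0 ∧ 0 < w.im ∧ w.im < 3} ∪
      ⋃ k, (A (fun _ => 0) k ∪ Q k) := by
    rw [← iUnion_R0]
    unfold Om
    rw [iUnion_union_distrib]
  rw [h1]
  have hU0 : IsOpen {w : ℂ | w.re < 0 ∧ 0 < w.im ∧ w.im < 3} := by
    rw [← iUnion_R0]
    exact isOpen_iUnion fun k => isOpen_R _ k
  have hU0c : Convex ℝ {w : ℂ | w.re < 0 ∧ 0 < w.im ∧ w.im < 3} :=
    (convex_halfSpace_re_lt _).inter ((convex_halfSpace_im_gt _).inter (convex_halfSpace_im_lt _))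
  apply CS_glue hU0 (fun k => (isOpen_A _ k).union (isOpen_Q k)) (CS_convex hU0 hU0c)
  · intro k
    have h2 : A (fun _ => 0) k ∪ Q k = A (fun _ => 0) k ∪ ⋃ _ : Unit, Q k := by
      rw [iUnion_const]
    rw [h2]
    apply CS_glue (isOpen_A _ k) (fun _ => isOpen_Q k) (CS_convex (isOpen_A _ k) (convex_A _ k))
      (fun _ => CS_convex (isOpen_Q k) (convex_Q k))
    · intro i j _ _ _; rfl
    · intro _
      exact ((convex_A _ k).inter (convex_Q k)).isPreconnected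
  · intro i j z h2 h3
    exact tent_disj h2 h3
  · intro k
    have h2 : {w : ℂ | w.re < 0 ∧ 0 < w.im ∧ w.im < 3} ∩ (A (fun _ => 0) k ∪ Q k) =
        {w : ℂ | w.re < 0 ∧ 0 < w.im ∧ w.im < 3} ∩ A (fun _ => 0) k := by
      ext w
      constructor
      · rintro ⟨h3, h4 | h4⟩
        · exact ⟨h3, h4⟩
        · exfalso
          have := X_ge_one k
          linarith [h4.1, h3.1]
      · rintro ⟨h3, h4⟩
        exact ⟨h3, Or.inl h4⟩
    rw [h2]
    exact (hU0c.inter (convex_A _ k)).isPreconnected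

end Pool.Agent.R229.HN
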