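import Mathlib
import Pool.Agent.R229.HN.Defs

/-! # Growth of functions in Hardy and Bergman spaces -/

set_option autoImplicit false

open Set Metric Filter Topology MeasureTheory
open scoped ENNReal

namespace Pool.Agent.R229.HN

lemma growth_hardy {F : ℂ → ℂ} (hF : DifferentiableOn ℂ F (ball 0 1)) {C : ℝ}
    (hC : ∀ r : ℝ, 0 < r → r < 1 →
      ∫ θ in (0 : ℝ)..(2 * Real.pi), ‖F (r * Complex.exp (θ * Complex.I))‖ ≤ C)
    {ζ : ℂ} (hζ : ζ ∈ ball (0 : ℂ) 1) : ‖F ζ‖ * (1 - ‖ζ‖) ≤ C := by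
  rw [mem_ball, dist_zero_right] at hζ
  have hpi := Real.pi_gt_three
  have key : ∀ r : ℝ, ‖ζ‖ < r → r < 1 → ‖F ζ‖ * (r - ‖ζ‖) ≤ C := by
    intro r h1 h2
    have hr0 : 0 < r := lt_of_le_of_lt (norm_nonneg _) h1
    have hsub : closedBall (0 : ℂ) r ⊆ ball 0 1 := closedBall_subset_ball h2
    have hd : DiffContOnCl ℂ F (ball 0 |r|) := by
      rw [abs_of_pos hr0]
      exact (hF.mono hsub).diffContOnCl_ball (subset_refl _)
    have h3 := hd.circleAverage_smul_div (w := ζ) (by
      rw [abs_of_pos hr0, mem_ball, dist_zero_right]; exact h1)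
    rw [Real.circleAverage_def] at h3
    have hcm : ∀ θ : ℝ, ‖circleMap 0 r θ‖ = r := by
      intro θ; rw [norm_circleMap_zero, abs_of_pos hr0]
    have hmem : ∀ θ : ℝ, circleMap 0 r θ ∈ closedBall (0 : ℂ) r := by
      intro θ; rw [mem_closedBall, dist_zero_right, hcm]
    have hbound : ∀ θ : ℝ, ‖((circleMap 0 r θ - 0) / (circleMap 0 r θ - ζ)) • F (circleMap 0 r θ)‖ ≤
        (1 / (r - ‖ζ‖)) * ‖F (circleMap 0 r θ)‖ := by
      intro θ
      rw [norm_smul, norm_div, sub_zero, hcm]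
      apply mul_le_mul_of_nonneg_right _ (norm_nonneg _)
      have h4 : r - ‖ζ‖ ≤ ‖circleMap 0 r θ - ζ‖ := by
        have := norm_sub_norm_le (circleMap 0 r θ) ζ
        rwa [hcm] at this
      have h5 : 0 < r - ‖ζ‖ := by linarith
      calc r / ‖circleMap 0 r θ - ζ‖ ≤ r / (r - ‖ζ‖) :=
            div_le_div_of_nonneg_left hr0.le h5 h4
        _ ≤ 1 / (r - ‖ζ‖) := by gcongr
    have hcont : Continuous fun θ : ℝ => ‖F (circleMap 0 r θ)‖ := by
      apply Continuous.norm
      rw [← continuousOn_univ]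
      exact (hF.continuousOn.mono hsub).comp (continuous_circleMap 0 r).continuousOn
        (fun θ _ => hmem θ)
    have h6 : ‖∫ θ in (0 : ℝ)..(2 * Real.pi),
        ((circleMap 0 r θ - 0) / (circleMap 0 r θ - ζ)) • F (circleMap 0 r θ)‖ ≤
        (1 / (r - ‖ζ‖)) * C := by
      refine (intervalIntegral.norm_integral_le_of_norm_le (by positivity)
        (Filter.Eventually.of_forall fun θ _ => hbound θ)
        ((continuous_const.mul hcont).intervalIntegrable _ _)).trans ?_
      rw [intervalIntegral.integral_const_mul]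
      have h7 : 0 < 1 / (r - ‖ζ‖) := by
        apply one_div_pos.mpr; linarith
      apply mul_le_mul_of_nonneg_left _ h7.le
      have h8 := hC r hr0 h2
      simpa only [circleMap_zero] using h8
    have h9 : ‖F ζ‖ ≤ (2 * Real.pi)⁻¹ * ((1 / (r - ‖ζ‖)) * C) := by
      rw [← h3, norm_smul, Real.norm_of_nonneg (by positivity)]
      exact mul_le_mul_of_nonneg_left h6 (by positivity)
    have hC0 : 0 ≤ C := le_trans (by
      apply intervalIntegral.integral_nonneg (by positivity)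
      intro θ _; exact norm_nonneg _) (hC r hr0 h2)
    have h10 : 0 < r - ‖ζ‖ := by linarith
    calc ‖F ζ‖ * (r - ‖ζ‖) ≤ ((2 * Real.pi)⁻¹ * ((1 / (r - ‖ζ‖)) * C)) * (r - ‖ζ‖) :=
          mul_le_mul_of_nonneg_right h9 h10.le
      _ = (2 * Real.pi)⁻¹ * C := by field_simp
      _ ≤ 1 * C := by
          apply mul_le_mul_of_nonneg_right _ hC0
          apply inv_le_one_of_one_le₀
          linarith
      _ = C := one_mul C
  have hlim : Tendsto (fun r : ℝ => ‖F ζ‖ * (r - ‖ζ‖)) (𝓝[<] 1) (𝓝 (‖F ζ‖ * (1 - ‖ζ‖))) := by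
    have : Continuous (fun r : ℝ => ‖F ζ‖ * (r - ‖ζ‖)) := by fun_prop
    exact (this.tendsto 1).mono_left nhdsWithin_le_nhds
  apply le_of_tendsto hlim
  have h1 : ∀ᶠ r in 𝓝[<] (1 : ℝ), ‖ζ‖ < r := mem_nhdsWithin_of_mem_nhds (lt_mem_nhds hζ)
  filter_upwards [h1, self_mem_nhdsWithin] with r h2 h3
  exact key r h2 h3

theorem mean_circ {g : ℂ → ℂ} {c : ℂ} {ρ : ℝ} (hρ : 0 < ρ)
    (hg : ∀ z ∈ closedBall c ρ, DifferentiableAt ℂ g z) :
    ENNReal.ofReal (2 * Real.pi * ‖g c‖) ≤
      ∫⁻ θ in Ioo (-Real.pi) Real.pi, ‖g (circleMap c ρ θ)‖ₑ := by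
  have h1 : Real.circleAverage g c ρ = g c := by
    refine circleAverage_of_differentiable_on_off_countable countable_empty ?_ ?_
    · intro z hz
      rw [abs_of_pos hρ] at hz
      exact (hg z hz).continuousAt.continuousWithinAt
    · intro z hz
      rw [abs_of_pos hρ] at hz
      exact hg z (ball_subset_closedBall hz.1)
  rw [Real.circleAverage_eq_integral_add (-Real.pi),
    intervalIntegral.integral_comp_add_right (fun θ => g (circleMap c ρ θ))] at h1
  have e1 : 0 + -Real.pi = -Real.pi := by ring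
  have e2 : 2 * Real.pi + -Real.pi = Real.pi := by ring
  rw [e1, e2, intervalIntegral.integral_of_le (by linarith [Real.pi_pos]),
    integral_Ioc_eq_integral_Ioo] at h1
  have h2 : (2 * Real.pi) • g c = ∫ θ in Ioo (-Real.pi) Real.pi, g (circleMap c ρ θ) := by
    rw [← h1, smul_smul, mul_inv_cancel₀ (by positivity), one_smul]
  have h3 : ENNReal.ofReal (2 * Real.pi * ‖g c‖) = ‖(2 * Real.pi) • g c‖ₑ := by
    rw [← ofReal_norm, norm_smul, Real.norm_of_nonneg (by positivity)]
  rw [h3, h2]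
  exact enorm_integral_le_lintegral_enorm _

theorem area_mean {g : ℂ → ℂ} {c : ℂ} {r : ℝ} (hr : 0 < r) (hg : DifferentiableOn ℂ g (ball c r)) :
    ENNReal.ofReal (Real.pi * r ^ 2 * ‖g c‖) ≤ ∫⁻ w in ball c r, ‖g w‖ₑ := by
  have h1 : ∫⁻ w in ball c r, ‖g w‖ₑ = ∫⁻ w, (ball c r).indicator (fun w => ‖g w‖ₑ) w :=
    (lintegral_indicator measurableSet_ball _).symm
  have h2 : ∫⁻ w, (ball c r).indicator (fun w => ‖g w‖ₑ) w
      = ∫⁻ w, (ball c r).indicator (fun w => ‖g w‖ₑ) (c + w) := (lintegral_add_left_eq_self _ c).symm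
  rw [h1, h2, ← Complex.lintegral_comp_polarCoord_symm]
  have hcm : ∀ p ∈ Ioo (0:ℝ) r ×ˢ Ioo (-Real.pi) Real.pi, circleMap c p.1 p.2 ∈ ball c r := by
    rintro ⟨ρ, θ⟩ ⟨⟨h3, h4⟩, _⟩
    rw [mem_ball, dist_eq_norm]
    simp only [circleMap_sub_center, norm_circleMap_zero]
    rw [abs_of_pos h3]
    exact h4
  have hcont : ContinuousOn (fun p : ℝ × ℝ => ENNReal.ofReal (p.1 * ‖g (circleMap c p.1 p.2)‖))
      (Ioo (0:ℝ) r ×ˢ Ioo (-Real.pi) Real.pi) := by
    refine ENNReal.continuous_ofReal.comp_continuousOn ?_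
    refine continuous_fst.continuousOn.mul (ContinuousOn.norm ?_)
    refine hg.continuousOn.comp (t := ball c r) ?_ hcm
    unfold circleMap
    fun_prop
  calc ENNReal.ofReal (Real.pi * r ^ 2 * ‖g c‖)
      ≤ ∫⁻ p in Ioo (0:ℝ) r ×ˢ Ioo (-Real.pi) Real.pi,
          ENNReal.ofReal (p.1 * ‖g (circleMap c p.1 p.2)‖) := by
        have e1 : (volume : Measure (ℝ × ℝ)).restrict (Ioo (0:ℝ) r ×ˢ Ioo (-Real.pi) Real.pi)
            = (volume.restrict (Ioo (0:ℝ) r)).prod (volume.restrict (Ioo (-Real.pi) Real.pi)) := by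
          rw [Measure.prod_restrict]
          rfl
        have haem := hcont.aemeasurable (μ := (volume : Measure (ℝ × ℝ)))
          (measurableSet_Ioo.prod measurableSet_Ioo)
        rw [e1] at haem ⊢
        rw [lintegral_prod _ haem]
        have h5 : ∀ ρ ∈ Ioo (0:ℝ) r, ENNReal.ofReal ρ * ENNReal.ofReal (2 * Real.pi * ‖g c‖)
            ≤ ∫⁻ θ in Ioo (-Real.pi) Real.pi, ENNReal.ofReal (ρ * ‖g (circleMap c ρ θ)‖) := by
          intro ρ hρ
          have h6 : ∀ θ : ℝ, ENNReal.ofReal (ρ * ‖g (circleMap c ρ θ)‖)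
              = ENNReal.ofReal ρ * ‖g (circleMap c ρ θ)‖ₑ := by
            intro θ
            rw [ENNReal.ofReal_mul hρ.1.le, ofReal_norm]
          simp only [h6]
          rw [lintegral_const_mul' _ _ ENNReal.ofReal_ne_top]
          gcongr
          refine mean_circ hρ.1 fun z hz => ?_
          exact (hg z (closedBall_subset_ball hρ.2 hz)).differentiableAt
            (isOpen_ball.mem_nhds (closedBall_subset_ball hρ.2 hz))
        have h7 := setLIntegral_mono' (μ := volume) measurableSet_Ioo h5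
        refine le_trans (le_of_eq ?_) h7
        rw [lintegral_mul_const' _ _ ENNReal.ofReal_ne_top]
        have h8 : ∫⁻ ρ in Ioo (0:ℝ) r, ENNReal.ofReal ρ = ENNReal.ofReal (r ^ 2 / 2) := by
          rw [← ofReal_integral_eq_lintegral_ofReal]
          · congr 1
            rw [← integral_Ioc_eq_integral_Ioo, ← intervalIntegral.integral_of_le hr.le, integral_id]
            ring
          · exact (continuous_id.integrableOn_Icc).mono_set Ioo_subset_Icc_self
          · exact (ae_restrict_mem measurableSet_Ioo).mono fun x hx => hx.1.le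
        rw [h8, ← ENNReal.ofReal_mul (by positivity)]
        congr 1
        ring
    _ = ∫⁻ p in Ioo (0:ℝ) r ×ˢ Ioo (-Real.pi) Real.pi,
          ENNReal.ofReal p.1 • (ball c r).indicator (fun w => ‖g w‖ₑ) (c + Complex.polarCoord.symm p) := by
        refine setLIntegral_congr_fun (measurableSet_Ioo.prod measurableSet_Ioo) fun p hp => ?_
        have e2 : c + Complex.polarCoord.symm p = circleMap c p.1 p.2 := by
          rw [Complex.polarCoord_symm_apply, circleMap, Complex.exp_mul_I, ← Complex.ofReal_cos,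
            ← Complex.ofReal_sin]
        have e3 := hcm p hp
        simp only [e2, indicator_of_mem e3, smul_eq_mul]
        rw [ENNReal.ofReal_mul hp.1.1.le, ofReal_norm]
    _ ≤ _ := by
        refine lintegral_mono_set ?_
        rintro ⟨ρ, θ⟩ ⟨h3, h4⟩
        exact ⟨h3.1, h4⟩

lemma growth_bergman {F : ℂ → ℂ} (hF : DifferentiableOn ℂ F (ball 0 1)) {α : ℝ}
    (hI : IntegrableOn (fun z : ℂ => ‖F z‖ * (1 - ‖z‖) ^ α) (ball 0 1)) :
    ∃ C : ℝ, ∀ ζ ∈ ball (0 : ℂ) 1, ‖F ζ‖ * (1 - ‖ζ‖) ^ (α + 2) ≤ C := by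
  set I : ℝ := ∫ z in ball (0 : ℂ) 1, ‖F z‖ * (1 - ‖z‖) ^ α with hIdef
  -- comparison constant
  set κ : ℝ := min ((1 / 2 : ℝ) ^ α) ((3 / 2 : ℝ) ^ α) with hκ
  have hκ0 : 0 < κ := lt_min (by positivity) (by positivity)
  refine ⟨4 * I / (Real.pi * κ), fun ζ hζ => ?_⟩
  have hζ' : ‖ζ‖ < 1 := by rwa [mem_ball, dist_zero_right] at hζ
  set δ : ℝ := 1 - ‖ζ‖ with hδ
  have hδ0 : 0 < δ := by rw [hδ]; linarith
  have hsub : ball ζ (δ / 2) ⊆ ball 0 1 := by
    intro z hz
    rw [mem_ball, dist_eq_norm] at hz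
    rw [mem_ball, dist_zero_right]
    calc ‖z‖ = ‖(z - ζ) + ζ‖ := by ring_nf
      _ ≤ ‖z - ζ‖ + ‖ζ‖ := norm_add_le _ _
      _ < 1 := by rw [hδ] at hz; linarith
  have h1 := area_mean (half_pos hδ0) (hF.mono hsub)
  have hlow : ∀ z ∈ ball ζ (δ / 2), κ * δ ^ α ≤ (1 - ‖z‖) ^ α := by
    intro z hz
    rw [mem_ball, dist_eq_norm] at hz
    have h2 : δ / 2 ≤ 1 - ‖z‖ := by
      have : ‖z‖ ≤ ‖z - ζ‖ + ‖ζ‖ := by
        calc ‖z‖ = ‖(z - ζ) + ζ‖ := by ring_nf
          _ ≤ _ := norm_add_le _ _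
      rw [hδ] at hz ⊢; linarith
    have h3 : 1 - ‖z‖ ≤ 3 * δ / 2 := by
      have : ‖ζ‖ ≤ ‖z - ζ‖ + ‖z‖ := by
        calc ‖ζ‖ = ‖z - (z - ζ)‖ := by ring_nf
          _ ≤ ‖z‖ + ‖z - ζ‖ := norm_sub_le _ _
          _ = _ := by ring
      rw [hδ] at hz ⊢; linarith
    by_cases hα0 : 0 ≤ α
    · calc κ * δ ^ α ≤ (1 / 2 : ℝ) ^ α * δ ^ α :=
            mul_le_mul_of_nonneg_right (min_le_left _ _) (by positivity)
        _ = (δ / 2) ^ α := by
            rw [← Real.mul_rpow (by norm_num) hδ0.le]; congr 1; ring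
        _ ≤ (1 - ‖z‖) ^ α := Real.rpow_le_rpow (by positivity) h2 hα0
    · push Not at hα0
      calc κ * δ ^ α ≤ (3 / 2 : ℝ) ^ α * δ ^ α :=
            mul_le_mul_of_nonneg_right (min_le_right _ _) (by positivity)
        _ = (3 * δ / 2) ^ α := by
            rw [← Real.mul_rpow (by norm_num) hδ0.le]; congr 1; ring
        _ ≤ (1 - ‖z‖) ^ α := Real.rpow_le_rpow_of_nonpos (by linarith) h3 hα0.le
  -- the integral over the small ball
  have h4 : ENNReal.ofReal (κ * δ ^ α) * ∫⁻ z in ball ζ (δ / 2), ‖F z‖ₑ ≤ ENNReal.ofReal I := by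
    rw [← lintegral_const_mul' _ _ ENNReal.ofReal_ne_top, hIdef,
      ofReal_integral_eq_lintegral_ofReal hI]
    · refine le_trans ?_ (lintegral_mono_set hsub)
      refine setLIntegral_mono' measurableSet_ball fun z hz => ?_
      rw [← ofReal_norm, ← ENNReal.ofReal_mul (by positivity)]
      apply ENNReal.ofReal_le_ofReal
      rw [mul_comm]
      exact mul_le_mul_of_nonneg_left (hlow z hz) (norm_nonneg _)
    · refine (ae_restrict_mem measurableSet_ball).mono fun z hz => ?_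
      rw [mem_ball, dist_zero_right] at hz
      have : 0 ≤ 1 - ‖z‖ := by linarith
      positivity
  have h5 : ENNReal.ofReal ((κ * δ ^ α) * (Real.pi * (δ / 2) ^ 2 * ‖F ζ‖)) ≤ ENNReal.ofReal I := by
    rw [ENNReal.ofReal_mul (by positivity)]
    exact le_trans (mul_le_mul_right h1 _) h4
  have hI0 : 0 ≤ I := by
    apply setIntegral_nonneg measurableSet_ball
    intro z hz
    rw [mem_ball, dist_zero_right] at hz
    have : 0 ≤ 1 - ‖z‖ := by linarith
    positivity
  have h6 := (ENNReal.ofReal_le_ofReal_iff hI0).mp h5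
  have h7 : δ ^ (α + 2) = δ ^ α * δ ^ 2 := by
    rw [Real.rpow_add hδ0, Real.rpow_two]
  rw [h7, le_div_iff₀ (by positivity)]
  nlinarith

/-- A function with bounded integral means lies in the weighted Bergman spaces. -/
lemma bergman_of_hardy {f : ℂ → ℂ} (hf : ContinuousOn f (ball 0 1)) {p α : ℝ} (hp : 0 < p)
    (hα : -1 < α) (h : InHardy p f) : InBergman p α f := by
  obtain ⟨C, hC⟩ := h
  have hcf : ContinuousOn (fun z : ℂ => ‖f z‖ ^ p * (1 - ‖z‖) ^ α) (ball 0 1) := by
    apply ContinuousOn.mul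
    · exact (hf.norm).rpow_const (fun _ _ => Or.inr hp.le)
    · apply ContinuousOn.rpow_const (by fun_prop)
      intro z hz
      rw [mem_ball, dist_zero_right] at hz
      left; linarith
  refine ⟨hcf.aestronglyMeasurable measurableSet_ball, ?_⟩
  rw [hasFiniteIntegral_iff_enorm]
  -- the circle integrals
  have hcirc : ∀ ρ ∈ Ioo (0 : ℝ) 1, ∫⁻ θ in Ioo (-Real.pi) Real.pi,
      ENNReal.ofReal (‖f (circleMap 0 ρ θ)‖ ^ p) ≤ ENNReal.ofReal C := by
    intro ρ hρ
    have hcont : Continuous fun θ : ℝ => ‖f (circleMap 0 ρ θ)‖ ^ p := by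
      rw [← continuousOn_univ]
      apply ContinuousOn.rpow_const _ (fun _ _ => Or.inr hp.le)
      apply ContinuousOn.norm
      apply hf.comp (continuous_circleMap 0 ρ).continuousOn
      intro θ _
      rw [mem_ball, dist_zero_right, norm_circleMap_zero, abs_of_pos hρ.1]
      exact hρ.2
    rw [← ofReal_integral_eq_lintegral_ofReal]
    · apply ENNReal.ofReal_le_ofReal
      have h1 := hC ρ hρ.1 hρ.2
      have h2 : ∫ θ in Ioo (-Real.pi) Real.pi, ‖f (circleMap 0 ρ θ)‖ ^ p =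
          ∫ θ in (0 : ℝ)..(2 * Real.pi), ‖f (circleMap 0 ρ θ)‖ ^ p := by
        rw [← integral_Ioc_eq_integral_Ioo, ← intervalIntegral.integral_of_le
          (by linarith [Real.pi_pos])]
        have hper : Function.Periodic (fun θ : ℝ => ‖f (circleMap 0 ρ θ)‖ ^ p) (2 * Real.pi) := by
          intro θ
          simp only
          rw [periodic_circleMap 0 ρ θ]
        have h3 := hper.intervalIntegral_add_eq (-Real.pi) 0
        rw [zero_add] at h3
        rw [← h3]
        congr 1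
        ring
      rw [h2]
      simpa only [circleMap_zero] using h1
    · exact (hcont.integrableOn_Icc).mono_set Ioo_subset_Icc_self
    · exact Filter.Eventually.of_forall fun θ => by positivity
  have hint : ∫⁻ ρ in Ioo (0 : ℝ) 1, ENNReal.ofReal ((1 - ρ) ^ α) < ⊤ := by
    have h1 : IntegrableOn (fun ρ : ℝ => (1 - ρ) ^ α) (Ioo 0 1) := by
      have h2 : IntervalIntegrable (fun x : ℝ => x ^ α) volume 1 0 :=
        (intervalIntegral.intervalIntegrable_rpow' hα)
      have h3 := h2.comp_sub_left 1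
      simp only [sub_self, sub_zero] at h3
      rw [intervalIntegrable_iff_integrableOn_Ioo_of_le zero_le_one] at h3
      exact h3
    have h4 := h1.2
    rw [hasFiniteIntegral_iff_ofReal] at h4
    · exact h4
    · refine (ae_restrict_mem measurableSet_Ioo).mono fun x hx => ?_
      have : 0 ≤ 1 - x := by linarith [hx.2]
      positivity
  -- polar coordinates
  have hnn : ∀ z ∈ ball (0 : ℂ) 1, 0 ≤ ‖f z‖ ^ p * (1 - ‖z‖) ^ α := by
    intro z hz
    rw [mem_ball, dist_zero_right] at hz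
    have : 0 ≤ 1 - ‖z‖ := by linarith
    positivity
  have hcm : ∀ q ∈ Ioo (0:ℝ) 1 ×ˢ Ioo (-Real.pi) Real.pi, circleMap 0 q.1 q.2 ∈ ball (0 : ℂ) 1 := by
    rintro ⟨ρ, θ⟩ ⟨⟨h3, h4⟩, _⟩
    rw [mem_ball, dist_zero_right, norm_circleMap_zero, abs_of_pos h3]
    exact h4
  have hcont : ContinuousOn (fun q : ℝ × ℝ => ENNReal.ofReal
      ((1 - q.1) ^ α * ‖f (circleMap 0 q.1 q.2)‖ ^ p))
      (Ioo (0:ℝ) 1 ×ˢ Ioo (-Real.pi) Real.pi) := by
    refine ENNReal.continuous_ofReal.comp_continuousOn ?_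
    apply ContinuousOn.mul
    · apply ContinuousOn.rpow_const (by fun_prop)
      rintro ⟨ρ, θ⟩ ⟨⟨h3, h4⟩, _⟩
      left
      have : 0 < 1 - ρ := by linarith
      exact this.ne'
    · apply ContinuousOn.rpow_const _ (fun _ _ => Or.inr hp.le)
      apply ContinuousOn.norm
      refine hf.comp (t := ball 0 1) ?_ hcm
      unfold circleMap
      fun_prop
  calc ∫⁻ z in ball (0 : ℂ) 1, ‖‖f z‖ ^ p * (1 - ‖z‖) ^ α‖ₑ
      = ∫⁻ z, (ball (0 : ℂ) 1).indicator
          (fun z => ENNReal.ofReal (‖f z‖ ^ p * (1 - ‖z‖) ^ α)) z := by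
        rw [lintegral_indicator measurableSet_ball]
        refine setLIntegral_congr_fun measurableSet_ball fun z hz => ?_
        rw [← ofReal_norm, Real.norm_of_nonneg (hnn z hz)]
    _ = ∫⁻ q in polarCoord.target, ENNReal.ofReal q.1 • (ball (0 : ℂ) 1).indicator
          (fun z => ENNReal.ofReal (‖f z‖ ^ p * (1 - ‖z‖) ^ α)) (Complex.polarCoord.symm q) :=
        (Complex.lintegral_comp_polarCoord_symm _).symm
    _ ≤ ∫⁻ q in polarCoord.target, (Iio (1 : ℝ) ×ˢ (univ : Set ℝ)).indicator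
          (fun q => ENNReal.ofReal ((1 - q.1) ^ α * ‖f (circleMap 0 q.1 q.2)‖ ^ p)) q := by
        refine setLIntegral_mono' polarCoord.open_target.measurableSet fun q hq => ?_
        rw [polarCoord_target] at hq
        have e2 : Complex.polarCoord.symm q = circleMap 0 q.1 q.2 := by
          rw [Complex.polarCoord_symm_apply, circleMap_zero, Complex.exp_mul_I,
            ← Complex.ofReal_cos, ← Complex.ofReal_sin]
        rw [e2]
        have hq1 : 0 < q.1 := hq.1
        by_cases h1 : q.1 < 1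
        · have h2 : circleMap 0 q.1 q.2 ∈ ball (0 : ℂ) 1 := hcm q ⟨⟨hq1, h1⟩, hq.2⟩
          rw [indicator_of_mem h2, indicator_of_mem (show q ∈ Iio (1 : ℝ) ×ˢ (univ : Set ℝ) from
            ⟨h1, mem_univ _⟩), smul_eq_mul, ← ENNReal.ofReal_mul hq1.le]
          apply ENNReal.ofReal_le_ofReal
          rw [norm_circleMap_zero, abs_of_pos hq1]
          have h3 : 0 ≤ (1 - q.1) ^ α := by
            have : 0 ≤ 1 - q.1 := by linarith
            positivity
          have h4 : 0 ≤ ‖f (circleMap 0 q.1 q.2)‖ ^ p := by positivity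
          calc q.1 * (‖f (circleMap 0 q.1 q.2)‖ ^ p * (1 - q.1) ^ α)
              ≤ 1 * (‖f (circleMap 0 q.1 q.2)‖ ^ p * (1 - q.1) ^ α) :=
                mul_le_mul_of_nonneg_right h1.le (by positivity)
            _ = _ := by ring
        · have h2 : circleMap 0 q.1 q.2 ∉ ball (0 : ℂ) 1 := by
            rw [mem_ball, dist_zero_right, norm_circleMap_zero, abs_of_pos hq1]
            exact h1
          rw [indicator_of_notMem h2, smul_zero]
          exact bot_le
    _ = ∫⁻ q in Ioo (0 : ℝ) 1 ×ˢ Ioo (-Real.pi) Real.pi,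
          ENNReal.ofReal ((1 - q.1) ^ α * ‖f (circleMap 0 q.1 q.2)‖ ^ p) := by
        rw [lintegral_indicator (measurableSet_Iio.prod MeasurableSet.univ),
          Measure.restrict_restrict (measurableSet_Iio.prod MeasurableSet.univ)]
        congr 2
        rw [polarCoord_target]
        ext q
        constructor
        · rintro ⟨⟨h1, -⟩, h2, h3⟩
          exact ⟨⟨h2, h1⟩, h3⟩
        · rintro ⟨⟨h1, h2⟩, h3⟩
          exact ⟨⟨h2, mem_univ _⟩, h1, h3⟩
    _ < ⊤ := by
        have e1 : (volume : Measure (ℝ × ℝ)).restrict (Ioo (0:ℝ) 1 ×ˢ Ioo (-Real.pi) Real.pi)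
            = (volume.restrict (Ioo (0:ℝ) 1)).prod (volume.restrict (Ioo (-Real.pi) Real.pi)) := by
          rw [Measure.prod_restrict]
          rfl
        have haem := hcont.aemeasurable (μ := (volume : Measure (ℝ × ℝ)))
          (measurableSet_Ioo.prod measurableSet_Ioo)
        rw [e1] at haem ⊢
        rw [lintegral_prod _ haem]
        have h5 : ∀ ρ ∈ Ioo (0:ℝ) 1, ∫⁻ θ in Ioo (-Real.pi) Real.pi,
            ENNReal.ofReal ((1 - ρ) ^ α * ‖f (circleMap 0 ρ θ)‖ ^ p) ≤
              ENNReal.ofReal ((1 - ρ) ^ α) * ENNReal.ofReal C := by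
          intro ρ hρ
          have h0 : 0 ≤ (1 - ρ) ^ α := by
            have : 0 ≤ 1 - ρ := by linarith [hρ.2]
            positivity
          simp only [ENNReal.ofReal_mul h0]
          rw [lintegral_const_mul' _ _ ENNReal.ofReal_ne_top]
          gcongr
          exact hcirc ρ hρ
        refine lt_of_le_of_lt (setLIntegral_mono' (μ := volume) measurableSet_Ioo h5) ?_
        rw [lintegral_mul_const' _ _ ENNReal.ofReal_ne_top]
        exact ENNReal.mul_lt_top hint ENNReal.ofReal_lt_top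

end Pool.Agent.R229.HN
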