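import Mathlib
import Pool.Agent.R229.HN.Geo
import Pool.Agent.R229.HN.Growth

/-! # The first domain: chains of discs -/

set_option autoImplicit false

open Set Metric Filter Topology MeasureTheory

namespace Pool.Agent.R229.HN

lemma re_circleAverage {F : ℂ → ℂ} {c : ℂ} {ρ : ℝ} (hF : CircleIntegrable F c ρ) :
    Real.circleAverage (fun z => (F z).re) c ρ = (Real.circleAverage F c ρ).re := by
  have h2 := Complex.reCLM.circleAverage_comp_comm (f := F) (c := c) (R := ρ) hF
  have h3 : (fun ζ => (F ζ).re) = Complex.reCLM ∘ F := rfl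
  rw [h3, h2]
  rfl

/-- Harnack's inequality. -/
lemma harnack {F : ℂ → ℂ} {c : ℂ} {ρ : ℝ} (hρ : 0 < ρ) (hF : DiffContOnCl ℂ F (ball c ρ))
    (hpos : ∀ z ∈ closedBall c ρ, 0 ≤ (F z).re) {w : ℂ} (hw : ‖w - c‖ ≤ ρ / 2) :
    (F c).re / 3 ≤ (F w).re := by
  have hFc : ContinuousOn F (closedBall c ρ) := by
    have := hF.2
    rwa [closure_ball _ hρ.ne'] at this
  have hwb : w ∈ ball c ρ := by
    rw [mem_ball, dist_eq_norm]; linarith
  have hsph : sphere c |ρ| ⊆ closedBall c ρ := by
    rw [abs_of_pos hρ]; exact sphere_subset_closedBall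
  have hi : CircleIntegrable F c ρ := (hFc.mono hsph).circleIntegrable'
  have h1 : Real.circleAverage (fun z => (F z).re) c ρ = (F c).re := by
    rw [re_circleAverage hi]
    congr 1
    apply DiffContOnCl.circleAverage
    rwa [abs_of_pos hρ]
  set P : ℂ → ℝ := fun z => ((z - c + (w - c)) / ((z - c) - (w - c))).re with hP
  have hden : ∀ z ∈ sphere c |ρ|, (z - c) - (w - c) ≠ 0 := by
    intro z hz h
    rw [abs_of_pos hρ, mem_sphere, dist_eq_norm] at hz
    have h2 : z = w := by linear_combination h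
    rw [h2] at hz
    linarith
  have hPc : ContinuousOn P (sphere c |ρ|) := by
    apply Complex.continuous_re.comp_continuousOn
    apply ContinuousOn.div (by fun_prop) (by fun_prop) hden
  have hi2 : CircleIntegrable (fun z => P z • F z) c ρ :=
    (hPc.smul (hFc.mono hsph)).circleIntegrable'
  have h2 : Real.circleAverage (fun z => P z * (F z).re) c ρ = (F w).re := by
    have h3 := hF.circleAverage_re_herglotzRieszKernel_smul' hwb
    have h4 : (fun z => P z * (F z).re) = fun z => ((fun z => P z • F z) z).re := by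
      funext z; simp
    rw [h4, re_circleAverage hi2, h3]
  have h5 : Real.circleAverage (fun z => (1 / 3 : ℝ) • (F z).re) c ρ ≤
      Real.circleAverage (fun z => P z * (F z).re) c ρ := by
    apply Real.circleAverage_mono
    · exact (ContinuousOn.smul (f := fun _ : ℂ => (1 / 3 : ℝ)) continuousOn_const
        (Complex.continuous_re.comp_continuousOn (hFc.mono hsph))).circleIntegrable'
    · exact (hPc.mul (Complex.continuous_re.comp_continuousOn (hFc.mono hsph))).circleIntegrable'
    · intro z hz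
      rw [smul_eq_mul]
      apply mul_le_mul_of_nonneg_right _ (hpos z (hsph hz))
      have h6 := le_re_herglotzRieszKernel (c := c) (z := z) (w := w) (R := ρ)
        (by rwa [abs_of_pos hρ] at hz) hwb
      refine le_trans ?_ h6
      rw [div_le_div_iff₀ (by norm_num) (by positivity)]
      linarith
  rw [Real.circleAverage_fun_smul, h1, h2, smul_eq_mul] at h5
  linarith

/-- one step -/
lemma step {Ω : Set ℂ} {ψ : ℂ → ℂ} (hψ : DifferentiableOn ℂ ψ Ω) (hm : MapsTo ψ Ω (ball 0 1))
    {c : ℂ} {ρ : ℝ} (hρ : 0 < ρ) (hsub : closedBall c ρ ⊆ Ω) {w : ℂ} (hw : ‖w - c‖ ≤ ρ / 2) :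
    (1 - ‖ψ c‖) / 3 ≤ 1 - ‖ψ w‖ := by
  obtain ⟨a, ha1, ha2⟩ : ∃ a : ℂ, ‖a‖ = 1 ∧ (a * ψ w).re = ‖ψ w‖ := by
    by_cases h : ψ w = 0
    · exact ⟨1, by simp, by simp [h]⟩
    · refine ⟨(starRingEnd ℂ) (ψ w) / ‖ψ w‖, ?_, ?_⟩
      · rw [norm_div, Complex.norm_conj, Complex.norm_real, norm_norm, div_self]
        exact norm_ne_zero_iff.mpr h
      · have h1 : (starRingEnd ℂ) (ψ w) / ‖ψ w‖ * ψ w = ((‖ψ w‖ : ℝ) : ℂ) := by
          have h2 : ((‖ψ w‖ : ℝ) : ℂ) ≠ 0 := by exact_mod_cast norm_ne_zero_iff.mpr h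
          rw [div_mul_eq_mul_div, Complex.conj_mul', div_eq_iff h2]
          ring
        rw [h1, Complex.ofReal_re]
  set F : ℂ → ℂ := fun z => 1 - a * ψ z with hF
  have hre : ∀ z, (F z).re = 1 - (a * ψ z).re := by
    intro z; simp [hF]
  have hle : ∀ z, (a * ψ z).re ≤ ‖ψ z‖ := by
    intro z
    calc (a * ψ z).re ≤ ‖a * ψ z‖ := Complex.re_le_norm _
      _ = ‖ψ z‖ := by rw [norm_mul, ha1, one_mul]
  have hFd : DiffContOnCl ℂ F (ball c ρ) := by
    have : DifferentiableOn ℂ F (closedBall c ρ) :=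
      ((hψ.mono hsub).const_mul a).const_sub 1
    exact this.diffContOnCl_ball (subset_refl _)
  have h1 := harnack hρ hFd (by
    intro z hz
    have h2 := hm (hsub hz)
    rw [mem_ball, dist_zero_right] at h2
    rw [hre]
    linarith [hle z]) hw
  rw [hre, hre, ha2] at h1
  have := hle c
  linarith

/-- a chain of discs along a segment -/
lemma chain {Ω : Set ℂ} {ψ : ℂ → ℂ} (hψ : DifferentiableOn ℂ ψ Ω) (hm : MapsTo ψ Ω (ball 0 1))
    {a b : ℂ} {ρ : ℝ} (hρ : 0 < ρ) (hsub : ∀ t ∈ Icc (0 : ℝ) 1, closedBall (a + t * (b - a)) ρ ⊆ Ω)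
    (N : ℕ) (hN : ‖b - a‖ ≤ N * (ρ / 2)) : (1 - ‖ψ a‖) / 3 ^ N ≤ 1 - ‖ψ b‖ := by
  rcases Nat.eq_zero_or_pos N with h0 | hpos
  · subst h0
    have h1 : ‖b - a‖ = 0 := le_antisymm (by simpa using hN) (norm_nonneg _)
    have h2 : b = a := sub_eq_zero.mp (norm_eq_zero.mp h1)
    rw [h2]; simp
  · have hNr : (0 : ℝ) < N := by exact_mod_cast hpos
    have key : ∀ j : ℕ, j ≤ N → (1 - ‖ψ a‖) / 3 ^ j ≤
        1 - ‖ψ (a + ((j / N : ℝ) : ℂ) * (b - a))‖ := by
      intro j
      induction j with
      | zero => intro _; simp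
      | succ j ih =>
        intro hj
        have h1 := ih (by omega)
        have h2 : ((j : ℝ) / N) ∈ Icc (0 : ℝ) 1 := by
          refine ⟨by positivity, ?_⟩
          rw [div_le_one hNr]
          exact_mod_cast (by omega : j ≤ N)
        have h3 := step hψ hm hρ (hsub _ h2)
          (w := a + (((j + 1 : ℕ) / N : ℝ) : ℂ) * (b - a)) (by
            have h4 : a + (((j + 1 : ℕ) / N : ℝ) : ℂ) * (b - a) -
                (a + ((j / N : ℝ) : ℂ) * (b - a)) = ((1 / N : ℝ) : ℂ) * (b - a) := by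
              push_cast; ring
            rw [h4, norm_mul, Complex.norm_real, Real.norm_of_nonneg (by positivity)]
            rw [one_div, inv_mul_le_iff₀ hNr]
            exact hN)
        refine le_trans ?_ h3
        rw [pow_succ, ← div_div]
        exact div_le_div_of_nonneg_right h1 (by norm_num)
    have h5 := key N le_rfl
    rw [div_self hNr.ne'] at h5
    simpa using h5

/-- the base point -/
noncomputable def w0 : ℂ := ⟨-1, 9 / 8⟩
/-- the far points -/
noncomputable def wk (k : ℕ) : ℂ := ⟨X (k + 1) - 3 / 2, 9 / 8⟩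

/-- number of steps -/
def steps (k : ℕ) : ℕ := 64 * 2 ^ k + (32 * 2 ^ k * (XN k + 3) + (96 * 2 ^ k + 2 * XN (k + 1)))

lemma ball_re {c w : ℂ} {ρ : ℝ} (h : w ∈ closedBall c ρ) : c.re - ρ ≤ w.re ∧ w.re ≤ c.re + ρ := by
  rw [mem_closedBall, dist_eq_norm] at h
  have h1 := (Complex.abs_re_le_norm (w - c)).trans h
  rw [Complex.sub_re, abs_le] at h1
  exact ⟨by linarith, by linarith⟩

lemma ball_im {c w : ℂ} {ρ : ℝ} (h : w ∈ closedBall c ρ) : c.im - ρ ≤ w.im ∧ w.im ≤ c.im + ρ := by
  rw [mem_closedBall, dist_eq_norm] at h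
  have h1 := (Complex.abs_im_le_norm (w - c)).trans h
  rw [Complex.sub_im, abs_le] at h1
  exact ⟨by linarith, by linarith⟩

lemma lower {ψ : ℂ → ℂ} (hψ : DifferentiableOn ℂ ψ (Om fun _ => 0))
    (hm : MapsTo ψ (Om fun _ => 0) (ball 0 1)) (k : ℕ) :
    (1 - ‖ψ w0‖) / 3 ^ (steps k) ≤ 1 - ‖ψ (wk k)‖ := by
  have e1 := hw_pos k
  have e2 := hw_le k
  have e3 := X_step k
  have e4 := X_ge_one k
  have e5 := hi_ge k
  have hmid : mid k = 3 - 7 * hw k := rfl
  have hlo : lo k = 3 - 8 * hw k := rfl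
  have hhi : hi k = 3 - 6 * hw k := rfl
  have hwk2 : hw k * 2 ^ k = 1 / 8 := by
    unfold hw
    rw [mul_assoc, ← mul_pow]
    norm_num
  have h2k : (0 : ℝ) < 2 ^ k := by positivity
  have memR : ∀ w : ℂ, w.re < 0 → 0 < w.im → w.im < hi k → w ∈ Om fun _ => 0 :=
    fun w h1 h2 h3 => mem_iUnion.mpr ⟨k, Or.inl ⟨by simpa using h1, h2, h3⟩⟩
  have memA : ∀ w : ℂ, -1 < w.re → w.re < X k + 2 → lo k < w.im → w.im < hi k →
      w ∈ Om fun _ => 0 :=
    fun w h1 h2 h3 h4 => mem_iUnion.mpr ⟨k, Or.inr (Or.inl ⟨by simpa using h1, h2, h3, h4⟩)⟩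
  have memQ : ∀ w : ℂ, X k < w.re → w.re < X (k + 1) → 0 < w.im → w.im < hi k →
      w ∈ Om fun _ => 0 :=
    fun w h1 h2 h3 h4 => mem_iUnion.mpr ⟨k, Or.inr (Or.inr ⟨h1, h2, h3, h4⟩)⟩
  set ρ : ℝ := hw k / 2 with hρ
  have hρ0 : 0 < ρ := by positivity
  set p1 : ℂ := ⟨-1, mid k⟩ with hp1
  set p2 : ℂ := ⟨X k + 3 / 2, mid k⟩ with hp2
  set p3 : ℂ := ⟨X k + 3 / 2, 9 / 8⟩ with hp3
  -- first segment
  have s1 : (1 - ‖ψ w0‖) / 3 ^ (64 * 2 ^ k) ≤ 1 - ‖ψ p1‖ := by
    apply chain hψ hm hρ0
    · intro t ht w hw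
      have r1 := ball_re hw
      have r2 := ball_im hw
      simp only [w0, hp1, Complex.add_re, Complex.add_im, Complex.mul_re, Complex.mul_im,
        Complex.sub_re, Complex.sub_im, Complex.ofReal_re, Complex.ofReal_im] at r1 r2
      have t0 := ht.1
      have t1 := ht.2
      apply memR
      · linarith
      · nlinarith
      · nlinarith
    · have h1 : p1 - w0 = ⟨0, mid k - 9 / 8⟩ := by
        apply Complex.ext <;> simp [hp1, w0]
      have h2 : ‖p1 - w0‖ ≤ 2 := by
        rw [h1]
        refine (Complex.norm_le_abs_re_add_abs_im _).trans ?_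
        simp only [abs_zero, zero_add]
        rw [abs_le]
        constructor <;> linarith
      refine h2.trans (le_of_eq ?_)
      push_cast
      rw [hρ]
      linear_combination (-16 : ℝ) * hwk2
  have s2 : (1 - ‖ψ p1‖) / 3 ^ (32 * 2 ^ k * (XN k + 3)) ≤ 1 - ‖ψ p2‖ := by
    apply chain hψ hm hρ0
    · intro t ht w hw
      have r1 := ball_re hw
      have r2 := ball_im hw
      simp only [hp1, hp2, Complex.add_re, Complex.add_im, Complex.mul_re, Complex.mul_im,
        Complex.sub_re, Complex.sub_im, Complex.ofReal_re, Complex.ofReal_im] at r1 r2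
      have t0 := ht.1
      have t1 := ht.2
      by_cases hre : w.re < 0
      · apply memR w hre
        · nlinarith
        · nlinarith
      · push Not at hre
        apply memA w (by linarith)
        · nlinarith
        · nlinarith
        · nlinarith
    · have h1 : p2 - p1 = ⟨X k + 5 / 2, 0⟩ := by
        apply Complex.ext
        · simp [hp1, hp2]; ring
        · simp [hp1, hp2]
      have h2 : ‖p2 - p1‖ ≤ X k + 3 := by
        rw [h1]
        refine (Complex.norm_le_abs_re_add_abs_im _).trans ?_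
        simp only [abs_zero, add_zero]
        rw [abs_of_nonneg (by linarith)]
        linarith
      refine h2.trans (le_of_eq ?_)
      push_cast
      rw [hρ]
      have : X k = (XN k : ℝ) := rfl
      rw [← this]
      linear_combination (-8 * (X k + 3) : ℝ) * hwk2
  have s3 : (1 - ‖ψ p2‖) / 3 ^ (96 * 2 ^ k) ≤ 1 - ‖ψ p3‖ := by
    apply chain hψ hm hρ0
    · intro t ht w hw
      have r1 := ball_re hw
      have r2 := ball_im hw
      simp only [hp2, hp3, Complex.add_re, Complex.add_im, Complex.mul_re, Complex.mul_im,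
        Complex.sub_re, Complex.sub_im, Complex.ofReal_re, Complex.ofReal_im] at r1 r2
      have t0 := ht.1
      have t1 := ht.2
      apply memQ w
      · linarith
      · linarith
      · nlinarith
      · nlinarith
    · have h1 : p3 - p2 = ⟨0, 9 / 8 - mid k⟩ := by
        apply Complex.ext <;> simp [hp2, hp3]
      have h2 : ‖p3 - p2‖ ≤ 3 := by
        rw [h1]
        refine (Complex.norm_le_abs_re_add_abs_im _).trans ?_
        simp only [abs_zero, zero_add]
        rw [abs_le]
        constructor <;> linarith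
      refine h2.trans (le_of_eq ?_)
      push_cast
      rw [hρ]
      linear_combination (-24 : ℝ) * hwk2
  have s4 : (1 - ‖ψ p3‖) / 3 ^ (2 * XN (k + 1)) ≤ 1 - ‖ψ (wk k)‖ := by
    apply chain hψ hm (one_pos)
    · intro t ht w hw
      have r1 := ball_re hw
      have r2 := ball_im hw
      simp only [hp3, wk, Complex.add_re, Complex.add_im, Complex.mul_re, Complex.mul_im,
        Complex.sub_re, Complex.sub_im, Complex.ofReal_re, Complex.ofReal_im] at r1 r2
      have t0 := ht.1
      have t1 := ht.2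
      apply memQ w
      · nlinarith
      · nlinarith
      · linarith
      · linarith
    · have h1 : wk k - p3 = ⟨X (k + 1) - X k - 3, 0⟩ := by
        apply Complex.ext
        · simp [hp3, wk]; ring
        · simp [hp3, wk]
      rw [h1]
      refine (Complex.norm_le_abs_re_add_abs_im _).trans ?_
      simp only [abs_zero, add_zero]
      rw [abs_of_nonneg (by linarith)]
      push_cast
      have : X (k + 1) = (XN (k + 1) : ℝ) := rfl
      rw [← this]
      linarith
  unfold steps
  rw [pow_add, pow_add, pow_add, ← div_div, ← div_div, ← div_div]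
  refine le_trans ?_ s4
  apply div_le_div_of_nonneg_right _ (by positivity)
  refine le_trans ?_ s3
  apply div_le_div_of_nonneg_right _ (by positivity)
  refine le_trans ?_ s2
  apply div_le_div_of_nonneg_right _ (by positivity)
  exact s1

end Pool.Agent.R229.HN
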