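import Mathlib
import Pool.Agent.R229.HN.Low

/-! # The numbers of the first domain -/

set_option autoImplicit false

open Set Metric Filter Topology MeasureTheory
open scoped ENNReal

namespace Pool.Agent.R229.HN

/-- the domain -/
noncomputable def D (l : ℕ → ℝ) : Set ℂ := Complex.exp '' Om l

lemma steps_le (k : ℕ) : (steps k : ℝ) ≤ 9 / 4 * X (k + 1) := by
  have h1 : X (k + 1) = (X k + 10) * (2 ^ k * 128) := by
    rw [X_succ, pow_add]; norm_num
  have h2 : (steps k : ℝ) = 64 * 2 ^ k + (32 * 2 ^ k * (X k + 3) + (96 * 2 ^ k + 2 * X (k + 1))) := by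
    unfold steps X; push_cast; ring
  have h3 : (0 : ℝ) < 2 ^ k := by positivity
  rw [h2]
  nlinarith

lemma three_le : (3 : ℝ) ≤ Real.exp (6 / 5) := by
  have h1 : (1.78 : ℝ) ≤ Real.exp (3 / 5) := by
    have := Real.quadratic_le_exp_of_nonneg (show (0 : ℝ) ≤ 3 / 5 by norm_num)
    norm_num at this ⊢
    linarith
  have h2 : Real.exp (6 / 5) = Real.exp (3 / 5) * Real.exp (3 / 5) := by
    rw [← Real.exp_add]; norm_num
  rw [h2]
  nlinarith

lemma X_ge (k : ℕ) : (k : ℝ) ≤ X k := by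
  induction k with
  | zero => have := X_ge_one 0; push_cast; linarith
  | succ n ih =>
    have := X_step n
    push_cast; linarith

lemma unbounded {q : ℝ} (hq : 3 ≤ q) (C : ℝ) :
    ∃ k, C < Real.exp (q * (X (k + 1) - 3 / 2)) / 3 ^ (steps k) := by
  obtain ⟨k, hk⟩ := exists_nat_gt (10 * (max C 0 + 15))
  refine ⟨k, ?_⟩
  have h1 : (3 : ℝ) ^ (steps k) ≤ Real.exp (27 / 10 * X (k + 1)) := by
    calc (3 : ℝ) ^ (steps k) ≤ Real.exp (6 / 5) ^ (steps k) :=
          pow_le_pow_left₀ (by norm_num) three_le _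
      _ = Real.exp (steps k * (6 / 5)) := (Real.exp_nat_mul _ _).symm
      _ ≤ Real.exp (27 / 10 * X (k + 1)) := by
          apply Real.exp_le_exp.mpr
          have := steps_le k
          linarith
  have h2 : Real.exp (q * (X (k + 1) - 3 / 2) - 27 / 10 * X (k + 1)) ≤
      Real.exp (q * (X (k + 1) - 3 / 2)) / 3 ^ (steps k) := by
    rw [Real.exp_sub]
    exact div_le_div_of_nonneg_left (Real.exp_pos _).le (by positivity) h1
  refine lt_of_lt_of_le ?_ h2
  have h3 : C < q * (X (k + 1) - 3 / 2) - 27 / 10 * X (k + 1) := by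
    have h4 := X_ge (k + 1)
    push_cast at h4
    have h5 : 10 * (max C 0 + 15) < X (k + 1) := by linarith
    have h6 := le_max_left C 0
    have h7 := le_max_right C 0
    have h8 : 3 * (X (k + 1) - 3 / 2) ≤ q * (X (k + 1) - 3 / 2) :=
      mul_le_mul_of_nonneg_right hq (by linarith)
    have h9 : 10 * max C 0 + 150 < X (k + 1) := by linarith
    by_contra hcon
    push Not at hcon
    have : 3 / 10 * X (k + 1) - 9 / 2 ≤ C := by linarith
    linarith
  linarith [Real.add_one_le_exp (q * (X (k + 1) - 3 / 2) - 27 / 10 * X (k + 1))]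

lemma norm_exp_rpow (w : ℂ) (p : ℝ) : ‖Complex.exp w‖ ^ p = ‖Complex.exp (p * w)‖ := by
  rw [Complex.norm_exp, Complex.norm_exp, ← Real.exp_mul, Complex.re_ofReal_mul, mul_comm]

/-- The first domain: there is a single map of small Hardy and Bergman numbers. -/
theorem low_map : ∃ f ∈ Hol (D fun _ => 0),
    (∀ p : ℝ, 3 ≤ p → ¬ InHardy p f) ∧
    (∀ p α : ℝ, -1 < α → 3 * (α + 2) ≤ p → ¬ InBergman p α f) := by
  have hw0 : w0 ∈ Om fun _ => 0 := by
    refine mem_iUnion.mpr ⟨0, Or.inl ⟨?_, ?_, ?_⟩⟩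
    · simp [w0]
    · simp [w0]
    · have := hi_ge 0
      simp only [w0]; linarith
  obtain ⟨ψ, g, hψ, hm, h0, hg, hgm, hinv⟩ := riemann_upper (isOpen_Om fun _ => 0)
    (conn_Om (fun _ => le_rfl)) (fun z hz => (Om_im hz).1) CS_Om0 hw0
  have hlow : ∀ k, 1 / 3 ^ (steps k) ≤ 1 - ‖ψ (wk k)‖ := by
    intro k
    have := lower hψ hm k
    rwa [h0, norm_zero, sub_zero] at this
  have hwk : ∀ k, wk k ∈ Om fun _ => 0 := by
    intro k
    have e3 := X_step k
    have e5 := hi_ge k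
    refine mem_iUnion.mpr ⟨k, Or.inr (Or.inr ⟨?_, ?_, ?_, ?_⟩)⟩ <;> simp only [wk] <;> linarith
  -- growth at the far points
  have hT : ∀ q : ℝ, 3 ≤ q → ∀ C : ℝ, ∃ ζ ∈ ball (0 : ℂ) 1,
      C < Real.exp (q * (g ζ).re) * (1 - ‖ζ‖) := by
    intro q hq C
    obtain ⟨k, hk⟩ := unbounded hq C
    refine ⟨ψ (wk k), hm (hwk k), ?_⟩
    rw [hinv _ (hwk k)]
    refine lt_of_lt_of_le hk ?_
    rw [div_eq_mul_one_div]
    exact mul_le_mul_of_nonneg_left (hlow k) (Real.exp_pos _).le
  refine ⟨fun ζ => Complex.exp (g ζ), ⟨hg.cexp, fun ζ hζ => ⟨g ζ, hgm hζ, rfl⟩⟩, ?_, ?_⟩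
  · rintro p hp ⟨C, hC⟩
    have hF : DifferentiableOn ℂ (fun ζ => Complex.exp (p * g ζ)) (ball 0 1) :=
      (hg.const_mul _).cexp
    obtain ⟨ζ, hζ, h1⟩ := hT p hp C
    have h2 := growth_hardy hF (C := C) (by
      intro r hr0 hr1
      have := hC r hr0 hr1
      simpa only [norm_exp_rpow] using this) hζ
    rw [Complex.norm_exp, Complex.re_ofReal_mul] at h2
    linarith
  · intro p α hα hp hI
    have hF : DifferentiableOn ℂ (fun ζ => Complex.exp (p * g ζ)) (ball 0 1) :=
      (hg.const_mul _).cexp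
    obtain ⟨C, hC⟩ := growth_bergman hF (α := α) (by
      unfold InBergman at hI
      simpa only [norm_exp_rpow] using hI)
    have hα2 : 0 < α + 2 := by linarith
    have hq : 3 ≤ p / (α + 2) := by
      rw [le_div_iff₀ hα2]; exact hp
    obtain ⟨ζ, hζ, h1⟩ := hT (p / (α + 2)) hq (max C 1)
    have h2 := hC ζ hζ
    rw [Complex.norm_exp, Complex.re_ofReal_mul] at h2
    rw [mem_ball, dist_zero_right] at hζ
    have hδ : 0 < 1 - ‖ζ‖ := by linarith
    have h3 : Real.exp (p * (g ζ).re) * (1 - ‖ζ‖) ^ (α + 2) =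
        (Real.exp (p / (α + 2) * (g ζ).re) * (1 - ‖ζ‖)) ^ (α + 2) := by
      rw [Real.mul_rpow (Real.exp_pos _).le hδ.le, ← Real.exp_mul]
      congr 2
      field_simp
    rw [h3] at h2
    set T := Real.exp (p / (α + 2) * (g ζ).re) * (1 - ‖ζ‖) with hTd
    have h4 : 1 ≤ T := le_trans (le_max_right _ _) h1.le
    have h5 : T ≤ T ^ (α + 2) := by
      calc T = T ^ (1 : ℝ) := (Real.rpow_one T).symm
        _ ≤ T ^ (α + 2) := Real.rpow_le_rpow_of_exponent_le h4 (by linarith)
    have h6 := lt_of_le_of_lt (le_max_left C 1) h1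
    linarith

theorem hardy_low : hardyNumber (D fun _ => 0) ≤ 3 := by
  obtain ⟨f, hf, h1, -⟩ := low_map
  have h0 : hardyNumber (D fun _ => 0) ≤ hardyF f := sInf_le (mem_image_of_mem hardyF hf)
  refine h0.trans ?_
  apply sSup_le
  rintro x (hx | ⟨p, hp0, hp, rfl⟩)
  · rw [mem_singleton_iff] at hx
    rw [hx]; exact bot_le
  · have h2 : p < 3 := by
      by_contra hcon
      push Not at hcon
      exact h1 p hcon hp
    calc ENNReal.ofReal p ≤ ENNReal.ofReal 3 := ENNReal.ofReal_le_ofReal h2.le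
      _ = 3 := by norm_num

theorem bergman_low : bergmanNumber (D fun _ => 0) ≤ 3 := by
  obtain ⟨f, hf, -, h1⟩ := low_map
  have h0 : bergmanNumber (D fun _ => 0) ≤ bergmanF f := sInf_le (mem_image_of_mem bergmanF hf)
  refine h0.trans ?_
  apply sSup_le
  rintro x (hx | ⟨p, α, hp0, hα, hp, rfl⟩)
  · rw [mem_singleton_iff] at hx
    rw [hx]; exact bot_le
  · have h2 : p < 3 * (α + 2) := by
      by_contra hcon
      push Not at hcon
      exact h1 p α hα hcon hp
    calc ENNReal.ofReal (p / (α + 2)) ≤ ENNReal.ofReal 3 := by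
          apply ENNReal.ofReal_le_ofReal
          rw [div_le_iff₀ (by linarith)]
          exact h2.le
      _ = 3 := by norm_num

theorem bergmanA_low {α : ℝ} (hα : -1 < α) :
    bergmanNumberA α (D fun _ => 0) ≤ ENNReal.ofReal (3 * (α + 2)) := by
  obtain ⟨f, hf, -, h1⟩ := low_map
  have h0 : bergmanNumberA α (D fun _ => 0) ≤ bergmanAF α f :=
    sInf_le (mem_image_of_mem (bergmanAF α) hf)
  refine h0.trans ?_
  apply sSup_le
  rintro x (hx | ⟨p, hp0, hp, rfl⟩)
  · rw [mem_singleton_iff] at hx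
    rw [hx]; exact bot_le
  · have h2 : p < 3 * (α + 2) := by
      by_contra hcon
      push Not at hcon
      exact h1 p α hα hcon hp
    exact ENNReal.ofReal_le_ofReal h2.le

end Pool.Agent.R229.HN
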