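import Mathlib
import Pool.Agent.R229.HN.Geo
import Pool.Agent.R229.HN.Growth
import Pool.Agent.R229.HN.Disc
import Pool.Agent.R229.HN.LowMain

/-! # The second domain: a superharmonic majorant -/

set_option autoImplicit false

open Set Metric Filter Topology MeasureTheory
open scoped ENNReal

namespace Pool.Agent.R229.HN

/-- heights -/
noncomputable def M (k : ℕ) : ℝ := Real.exp (k * X (k + 1))
/-- lengths -/
noncomputable def L (k : ℕ) : ℝ := 6 * (1 + M k)

lemma M_ge (k : ℕ) : 1 ≤ M k := by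
  unfold M
  apply Real.one_le_exp
  have := X_ge_one (k + 1)
  positivity

lemma M_mono {j k : ℕ} (h : j ≤ k) : M j ≤ M k := by
  unfold M
  apply Real.exp_le_exp.mpr
  have h1 : (j : ℝ) ≤ k := by exact_mod_cast h
  have h2 : X (j + 1) ≤ X (k + 1) := by
    rcases h.eq_or_lt with rfl | h
    · exact le_rfl
    · exact (X_lt h).trans (by linarith [X_step k])
  have h3 := X_ge_one (j + 1)
  apply mul_le_mul h1 h2 (by linarith) (by positivity)

lemma L_mono {j k : ℕ} (h : j ≤ k) : L j ≤ L k := by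
  have := M_mono h
  unfold L; linarith

lemma L_ge (k : ℕ) : 12 ≤ L k := by
  have := M_ge k
  unfold L; linarith

lemma L_nonneg (k : ℕ) : 0 ≤ L k := by linarith [L_ge k]

/-- frequency -/
noncomputable def lam (k : ℕ) : ℝ := 1 / hw k

lemma lam_ge (k : ℕ) : 1 ≤ lam k := by
  unfold lam
  rw [le_div_iff₀ (hw_pos k)]
  linarith [hw_le k]

/-- The harmonic function in the corridor is the real part of this function. -/
noncomputable def VV (k : ℕ) (w : ℂ) : ℂ :=
  2 * Complex.exp (-(lam k) * (w - mid k * Complex.I + L k)) +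
    2 * M k * Complex.exp (lam k * (w - mid k * Complex.I))

lemma VV_diff (k : ℕ) : Differentiable ℂ (VV k) := by
  unfold VV
  fun_prop

lemma VV_re (k : ℕ) (w : ℂ) : (VV k w).re =
    (2 * Real.exp (-(lam k) * (w.re + L k)) + 2 * M k * Real.exp (lam k * w.re)) *
      Real.cos (lam k * (w.im - mid k)) := by
  unfold VV
  have h1 : (-(lam k) * (w - mid k * Complex.I + L k) : ℂ) =
      ((-(lam k) * (w.re + L k) : ℝ) : ℂ) + ((-(lam k) * (w.im - mid k) : ℝ) : ℂ) * Complex.I := by
    apply Complex.ext <;> simp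
  have h2 : (lam k * (w - mid k * Complex.I) : ℂ) =
      ((lam k * w.re : ℝ) : ℂ) + ((lam k * (w.im - mid k) : ℝ) : ℂ) * Complex.I := by
    apply Complex.ext <;> simp
  rw [h1, h2]
  have e1 : (2 : ℂ) = ((2 : ℝ) : ℂ) := by norm_num
  have e2 : (2 * (M k : ℂ)) = ((2 * M k : ℝ) : ℂ) := by push_cast; ring
  rw [e2, e1, Complex.add_re, Complex.re_ofReal_mul, Complex.re_ofReal_mul, Complex.exp_re,
    Complex.exp_re]
  simp only [Complex.add_re, Complex.add_im, Complex.ofReal_re, Complex.ofReal_im, Complex.mul_re,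
    Complex.mul_im, Complex.I_re, Complex.I_im, mul_zero, mul_one, sub_zero, add_zero,
    zero_add]
  have h3 : Real.cos (-(lam k) * (w.im - mid k)) = Real.cos (lam k * (w.im - mid k)) := by
    rw [neg_mul, Real.cos_neg]
  rw [h3]
  ring

lemma cos_bounds {k : ℕ} {w : ℂ} (h1 : lo k < w.im) (h2 : w.im < hi k) :
    1 / 2 ≤ Real.cos (lam k * (w.im - mid k)) ∧ Real.cos (lam k * (w.im - mid k)) ≤ 1 := by
  refine ⟨?_, Real.cos_le_one _⟩
  have h3 := hw_pos k
  have hmid : mid k = 3 - 7 * hw k := rfl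
  have hlo : lo k = 3 - 8 * hw k := rfl
  have hhi : hi k = 3 - 6 * hw k := rfl
  have h4 : |w.im - mid k| ≤ hw k := by
    rw [abs_le]; constructor <;> linarith
  have h5 : |lam k * (w.im - mid k)| ≤ 1 := by
    rw [abs_mul]
    unfold lam
    rw [abs_of_pos (by positivity), one_div, inv_mul_le_iff₀ h3, mul_one]
    exact h4
  have h6 := Real.one_sub_sq_div_two_le_cos (x := lam k * (w.im - mid k))
  have h7 : (lam k * (w.im - mid k)) ^ 2 ≤ 1 := by
    rw [← sq_abs]
    exact pow_le_one₀ (abs_nonneg _) h5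
  linarith

lemma VV_pos {k : ℕ} {w : ℂ} (h1 : lo k < w.im) (h2 : w.im < hi k) : 0 < (VV k w).re := by
  rw [VV_re]
  have h3 := (cos_bounds h1 h2).1
  have h4 := M_ge k
  have h5 : 0 < M k := by linarith
  have h6 : 0 < Real.cos (lam k * (w.im - mid k)) := by linarith
  positivity

lemma VV_left {k : ℕ} {w : ℂ} (h1 : lo k < w.im) (h2 : w.im < hi k) (h3 : w.re ≤ -(L k)) :
    1 ≤ (VV k w).re := by
  rw [VV_re]
  have h4 := (cos_bounds h1 h2).1
  have h5 := M_ge k
  have h6 : 1 ≤ Real.exp (-(lam k) * (w.re + L k)) := by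
    apply Real.one_le_exp
    have := lam_ge k
    nlinarith
  have h7 : 0 < M k * Real.exp (lam k * w.re) := mul_pos (by linarith) (Real.exp_pos _)
  nlinarith

lemma VV_right {k : ℕ} {w : ℂ} (h1 : lo k < w.im) (h2 : w.im < hi k) (h3 : 0 ≤ w.re) :
    M k ≤ (VV k w).re := by
  rw [VV_re]
  have h4 := (cos_bounds h1 h2).1
  have h5 := M_ge k
  have h6 : 1 ≤ Real.exp (lam k * w.re) := by
    apply Real.one_le_exp
    have := lam_ge k
    positivity
  have h7 : 0 < Real.exp (-(lam k) * (w.re + L k)) := Real.exp_pos _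
  have h8 : M k ≤ M k * Real.exp (lam k * w.re) := by nlinarith
  nlinarith

lemma VV_mid {k : ℕ} {w : ℂ} (h1 : lo k < w.im) (h2 : w.im < hi k) (h3 : -(2 * L k / 3) < w.re)
    (h4 : w.re < -(L k / 3)) : (VV k w).re < 1 := by
  rw [VV_re]
  have h5 := cos_bounds h1 h2
  have h6 := M_ge k
  have h7 := lam_ge k
  have hL : L k / 3 = 2 * (1 + M k) := by unfold L; ring
  have e1 : Real.exp (-(lam k) * (w.re + L k)) ≤ Real.exp (-(2 * (1 + M k))) := by
    apply Real.exp_le_exp.mpr
    nlinarith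
  have e2 : Real.exp (lam k * w.re) ≤ Real.exp (-(2 * (1 + M k))) := by
    apply Real.exp_le_exp.mpr
    nlinarith
  have e3 : Real.exp (-(2 * (1 + M k))) * (2 * (1 + M k)) < 1 := by
    have h8 := Real.add_one_le_exp (2 * (1 + M k))
    have h9 : Real.exp (-(2 * (1 + M k))) * Real.exp (2 * (1 + M k)) = 1 := by
      rw [← Real.exp_add]; simp
    have h10 := Real.exp_pos (-(2 * (1 + M k)))
    nlinarith
  have e4 : 0 ≤ 2 * Real.exp (-(lam k) * (w.re + L k)) + 2 * M k * Real.exp (lam k * w.re) := by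
    positivity
  calc _ ≤ (2 * Real.exp (-(lam k) * (w.re + L k)) + 2 * M k * Real.exp (lam k * w.re)) * 1 :=
        mul_le_mul_of_nonneg_left h5.2 e4
    _ ≤ Real.exp (-(2 * (1 + M k))) * (2 * (1 + M k)) := by nlinarith
    _ < 1 := e3

open Classical in
/-- The majorant. -/
noncomputable def U (w : ℂ) : ℝ :=
  if h : ∃ k, w ∈ A L k ∪ Q k then
    (if 0 < w.re then M h.choose else
      if -(L h.choose / 2) ≤ w.re then min (VV h.choose w).re (M h.choose) else
        min (VV h.choose w).re 1)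
  else 1

lemma U_eq {k : ℕ} {w : ℂ} (hw : w ∈ A L k ∪ Q k) : U w =
    (if 0 < w.re then M k else
      if -(L k / 2) ≤ w.re then min (VV k w).re (M k) else min (VV k w).re 1) := by
  have h : ∃ k, w ∈ A L k ∪ Q k := ⟨k, hw⟩
  have h1 : h.choose = k := tent_disj h.choose_spec hw
  unfold U
  rw [dif_pos h, h1]

lemma U_right {k : ℕ} {w : ℂ} (hw : w ∈ A L k ∪ Q k) (h0 : 0 < w.re) : U w = M k := by
  rw [U_eq hw, if_pos h0]

lemma U_R {k : ℕ} {w : ℂ} (hw : w ∈ R L k) : U w = 1 := by
  by_cases h : ∃ j, w ∈ A L j ∪ Q j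
  · obtain ⟨j, hj⟩ := h
    rw [U_eq hj]
    obtain ⟨r1, r2, r3⟩ := hw
    have hLk := L_ge k
    have hX := X_ge_one j
    rcases hj with ⟨a1, a2, a3, a4⟩ | ⟨a1, _⟩
    swap
    · exfalso; linarith
    have hjk : j ≤ k := by
      by_contra hcon
      push Not at hcon
      have := hi_lt_lo hcon
      linarith
    have hLj := L_mono hjk
    have hLj0 := L_ge j
    rw [if_neg (by linarith), if_neg (by linarith)]
    exact min_eq_right (VV_left a3 a4 (by linarith))
  · unfold U
    rw [dif_neg h]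

lemma U_E {k : ℕ} {w : ℂ} (hw : w ∈ A L k) (h : w.re < -(L k / 3)) :
    U w = min (VV k w).re 1 := by
  have hL := L_ge k
  obtain ⟨a1, a2, a3, a4⟩ := hw
  rw [U_eq (Or.inl ⟨a1, a2, a3, a4⟩), if_neg (by linarith)]
  by_cases h2 : -(L k / 2) ≤ w.re
  · rw [if_pos h2]
    have h3 := VV_mid a3 a4 (by linarith) h
    rw [min_eq_left h3.le, min_eq_left (by linarith [M_ge k])]
  · rw [if_neg h2]

lemma U_F {k : ℕ} {w : ℂ} (hw : w ∈ A L k) (h : -(2 * L k / 3) < w.re) :
    U w = min (VV k w).re (M k) := by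
  have hL := L_ge k
  obtain ⟨a1, a2, a3, a4⟩ := hw
  rw [U_eq (Or.inl ⟨a1, a2, a3, a4⟩)]
  by_cases h0 : 0 < w.re
  · rw [if_pos h0, min_eq_right (VV_right a3 a4 h0.le)]
  · rw [if_neg h0]
    by_cases h2 : -(L k / 2) ≤ w.re
    · rw [if_pos h2]
    · rw [if_neg h2]
      push Not at h2
      have h3 := VV_mid a3 a4 h (by linarith)
      rw [min_eq_left h3.le, min_eq_left (by linarith [M_ge k])]

lemma U_nonneg {w : ℂ} (hw : w ∈ Om L) : 0 ≤ U w := by
  obtain ⟨k, hw⟩ := mem_iUnion.mp hw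
  have hM := M_ge k
  rcases hw with h | h | h
  · rw [U_R h]; norm_num
  · have hv := VV_pos h.2.2.1 h.2.2.2
    rw [U_eq (Or.inl h)]
    split_ifs
    · linarith
    · exact le_min hv.le (by linarith)
    · exact le_min hv.le (by norm_num)
  · rw [U_right (Or.inr h) (by linarith [h.1, X_ge_one k])]
    linarith

/-- Near each point the majorant is a minimum of two real parts of entire functions. -/
lemma U_local {w : ℂ} (hw : w ∈ Om L) : ∃ H₁ H₂ : ℂ → ℂ, Differentiable ℂ H₁ ∧
    Differentiable ℂ H₂ ∧ ∀ᶠ z in 𝓝 w, U z = min (H₁ z).re (H₂ z).re := by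
  obtain ⟨k, hw⟩ := mem_iUnion.mp hw
  rcases hw with h | h | h
  · refine ⟨fun _ => 1, fun _ => 1, by fun_prop, by fun_prop, ?_⟩
    filter_upwards [(isOpen_R L k).mem_nhds h] with z hz
    rw [U_R hz]; simp
  · by_cases hc : w.re < -(L k / 3)
    · refine ⟨VV k, fun _ => 1, VV_diff k, by fun_prop, ?_⟩
      have h2 : {z : ℂ | z.re < -(L k / 3)} ∈ 𝓝 w :=
        (isOpen_lt Complex.continuous_re continuous_const).mem_nhds hc
      filter_upwards [(isOpen_A L k).mem_nhds h, h2] with z hz hz2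
      rw [U_E hz hz2]; simp
    · refine ⟨VV k, fun _ => (M k : ℂ), VV_diff k, by fun_prop, ?_⟩
      have hL := L_ge k
      have hc' : -(2 * L k / 3) < w.re := by
        push Not at hc; linarith
      have h2 : {z : ℂ | -(2 * L k / 3) < z.re} ∈ 𝓝 w :=
        (isOpen_lt continuous_const Complex.continuous_re).mem_nhds hc'
      filter_upwards [(isOpen_A L k).mem_nhds h, h2] with z hz hz2
      rw [U_F hz hz2]; simp
  · refine ⟨fun _ => (M k : ℂ), fun _ => (M k : ℂ), by fun_prop, by fun_prop, ?_⟩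
    filter_upwards [(isOpen_Q k).mem_nhds h] with z hz
    rw [U_right (Or.inr hz) (by linarith [hz.1, X_ge_one k])]; simp

/-- The majorant dominates all the exponentials. -/
lemma U_dom (p : ℝ) (hp : 0 < p) : ∃ C : ℝ, 0 ≤ C ∧ ∀ w ∈ Om L, Real.exp (p * w.re) ≤ C + U w := by
  obtain ⟨n, hn⟩ := exists_nat_ge p
  refine ⟨1 + ∑ j ∈ Finset.range n, Real.exp (p * X (j + 1)), by positivity, ?_⟩
  intro w hw
  have hU := U_nonneg hw
  have hsum : 0 ≤ ∑ j ∈ Finset.range n, Real.exp (p * X (j + 1)) :=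
    Finset.sum_nonneg fun _ _ => (Real.exp_pos _).le
  by_cases h0 : w.re ≤ 0
  · have : Real.exp (p * w.re) ≤ 1 := by
      apply Real.exp_le_one_iff.mpr
      nlinarith
    linarith
  · push Not at h0
    obtain ⟨k, hw⟩ := mem_iUnion.mp hw
    have hL := L_ge k
    have hX := X_step k
    have hk : w ∈ A L k ∪ Q k ∧ w.re ≤ X (k + 1) := by
      rcases hw with ⟨r1, _⟩ | h | h
      · exfalso; linarith
      · exact ⟨Or.inl h, by linarith [h.2.1]⟩
      · exact ⟨Or.inr h, by linarith [h.2.1]⟩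
    have h1 : Real.exp (p * w.re) ≤ Real.exp (p * X (k + 1)) :=
      Real.exp_le_exp.mpr (mul_le_mul_of_nonneg_left hk.2 hp.le)
    by_cases hkn : k < n
    · have h2 : Real.exp (p * X (k + 1)) ≤ ∑ j ∈ Finset.range n, Real.exp (p * X (j + 1)) :=
        Finset.single_le_sum (f := fun j => Real.exp (p * X (j + 1)))
          (fun _ _ => (Real.exp_pos _).le) (Finset.mem_range.mpr hkn)
      linarith
    · push Not at hkn
      rw [U_right hk.1 h0]
      have h2 : Real.exp (p * X (k + 1)) ≤ M k := by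
        unfold M
        apply Real.exp_le_exp.mpr
        apply mul_le_mul_of_nonneg_right _ (by linarith [X_ge_one k])
        have : (n : ℝ) ≤ k := by exact_mod_cast hkn
        linarith
      linarith

end Pool.Agent.R229.HN
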