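import Mathlib
import Pool.Agent.R229.HN.Up

/-! # The numbers of the second domain -/

set_option autoImplicit false

open Set Metric Filter Topology MeasureTheory
open scoped ENNReal

namespace Pool.Agent.R229.HN

lemma U_continuousAt {w : ℂ} (hw : w ∈ Om L) : ContinuousAt U w := by
  obtain ⟨H₁, H₂, h1, h2, h3⟩ := U_local hw
  have hc : Continuous fun z => min (H₁ z).re (H₂ z).re :=
    (Complex.continuous_re.comp h1.continuous).min (Complex.continuous_re.comp h2.continuous)
  exact hc.continuousAt.congr (h3.mono fun z hz => hz.symm)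

lemma mean_re {H : ℂ → ℂ} {ζ : ℂ} {s : ℝ} (hs : 0 < s) (hH : DifferentiableOn ℂ H (closedBall ζ s)) :
    Real.circleAverage (fun z => (H z).re) ζ s = (H ζ).re := by
  have hsph : sphere ζ |s| ⊆ closedBall ζ s := by
    rw [abs_of_pos hs]; exact sphere_subset_closedBall
  rw [re_circleAverage (hH.continuousOn.mono hsph).circleIntegrable']
  congr 1
  apply DiffContOnCl.circleAverage
  rw [abs_of_pos hs]
  exact hH.diffContOnCl_ball (subset_refl _)

/-- local super mean value property of the composition -/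
lemma U_comp_local {g : ℂ → ℂ} (hg : DifferentiableOn ℂ g (ball 0 1))
    (hm : MapsTo g (ball 0 1) (Om L)) {ζ : ℂ} (hζ : ζ ∈ ball (0 : ℂ) 1) :
    ∃ e > 0, ∀ s, 0 < s → s < e → Real.circleAverage (fun z => U (g z)) ζ s ≤ U (g ζ) := by
  obtain ⟨H₁, H₂, h1, h2, h3⟩ := U_local (hm hζ)
  have hgc : ContinuousAt g ζ := (hg.differentiableAt (isOpen_ball.mem_nhds hζ)).continuousAt
  have h6 : ∀ᶠ z in 𝓝 ζ, z ∈ ball (0 : ℂ) 1 := isOpen_ball.mem_nhds hζ
  have h4 : ∀ᶠ z in 𝓝 ζ, z ∈ ball (0 : ℂ) 1 ∧ U (g z) = min (H₁ (g z)).re (H₂ (g z)).re :=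
    h6.and (hgc.eventually h3)
  obtain ⟨e, he, h5⟩ := Metric.eventually_nhds_iff_ball.mp h4
  refine ⟨e, he, fun s hs0 hs1 => ?_⟩
  have hsub : closedBall ζ s ⊆ ball ζ e := closedBall_subset_ball hs1
  have hd : DifferentiableOn ℂ g (closedBall ζ s) := hg.mono fun z hz => (h5 z (hsub hz)).1
  have hsph : sphere ζ |s| ⊆ closedBall ζ s := by
    rw [abs_of_pos hs0]; exact sphere_subset_closedBall
  have hUc : ContinuousOn (fun z => U (g z)) (closedBall ζ s) := by
    intro z hz
    have hz1 := (h5 z (hsub hz)).1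
    have := (U_continuousAt (hm hz1)).comp
      (hg.differentiableAt (isOpen_ball.mem_nhds hz1)).continuousAt
    exact this.continuousWithinAt
  have key : ∀ H : ℂ → ℂ, Differentiable ℂ H →
      (∀ z ∈ closedBall ζ s, U (g z) ≤ (H (g z)).re) →
      Real.circleAverage (fun z => U (g z)) ζ s ≤ (H (g ζ)).re := by
    intro H hH hle
    have hHg : DifferentiableOn ℂ (fun z => H (g z)) (closedBall ζ s) :=
      hH.comp_differentiableOn hd
    rw [← mean_re hs0 hHg]
    apply Real.circleAverage_mono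
    · exact (hUc.mono hsph).circleIntegrable'
    · exact (Complex.continuous_re.comp_continuousOn (hHg.continuousOn.mono hsph)).circleIntegrable'
    · intro z hz
      exact hle z (hsph hz)
  have hζs : ζ ∈ closedBall ζ s := mem_closedBall_self hs0.le
  rw [(h5 ζ (hsub hζs)).2]
  apply le_min
  · exact key H₁ h1 fun z hz => by rw [(h5 z (hsub hz)).2]; exact min_le_left _ _
  · exact key H₂ h2 fun z hz => by rw [(h5 z (hsub hz)).2]; exact min_le_right _ _

/-- All maps into the second domain lie in all Hardy spaces. -/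
theorem all_hardy {f : ℂ → ℂ} (hf : f ∈ Hol (D L)) {p : ℝ} (hp : 0 < p) : InHardy p f := by
  obtain ⟨hfd, hfm⟩ := hf
  -- the logarithm
  set g : ℂ → ℂ := fun ζ => Complex.log (f ζ) with hg
  have hlog : ∀ ζ ∈ ball (0 : ℂ) 1, g ζ ∈ Om L ∧ f ζ = Complex.exp (g ζ) ∧
      f ζ ∈ Complex.slitPlane := by
    intro ζ hζ
    obtain ⟨w, hw, hwf⟩ := hfm hζ
    obtain ⟨i1, i2⟩ := Om_im hw
    have hpi := Real.pi_gt_three
    have h1 : g ζ = w := by
      simp only [hg]
      rw [← hwf, Complex.log_exp (by linarith) (by linarith)]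
    refine ⟨by rw [h1]; exact hw, by rw [h1, hwf], ?_⟩
    rw [Complex.mem_slitPlane_iff]
    right
    rw [← hwf, Complex.exp_im]
    have : 0 < Real.sin w.im := Real.sin_pos_of_pos_of_lt_pi i1 (by linarith)
    have := Real.exp_pos w.re
    positivity
  have hgd : DifferentiableOn ℂ g (ball 0 1) := fun ζ hζ =>
    (hfd ζ hζ).clog (hlog ζ hζ).2.2
  have hgm : MapsTo g (ball 0 1) (Om L) := fun ζ hζ => (hlog ζ hζ).1
  obtain ⟨C, hC0, hC⟩ := U_dom p hp
  refine ⟨2 * Real.pi * (C + U (g 0)), fun r hr0 hr1 => ?_⟩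
  have hsub : closedBall (0 : ℂ) r ⊆ ball 0 1 := closedBall_subset_ball hr1
  have hUc : ContinuousOn (fun z => U (g z)) (closedBall 0 r) := by
    intro z hz
    have hz1 := hsub hz
    have := (U_continuousAt (hgm hz1)).comp
      (hgd.differentiableAt (isOpen_ball.mem_nhds hz1)).continuousAt
    exact this.continuousWithinAt
  have h1 := supermean hr0 hUc fun z hz =>
    U_comp_local hgd hgm (hsub (ball_subset_closedBall hz))
  have hcm : ∀ θ : ℝ, circleMap 0 r θ ∈ closedBall (0 : ℂ) r := fun θ =>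
    circleMap_mem_closedBall 0 hr0.le θ
  have hcU : Continuous fun θ : ℝ => U (g (circleMap 0 r θ)) := by
    rw [← continuousOn_univ]
    exact hUc.comp (continuous_circleMap 0 r).continuousOn (fun θ _ => hcm θ)
  have hcf : Continuous fun θ : ℝ => ‖f (circleMap 0 r θ)‖ ^ p := by
    rw [← continuousOn_univ]
    apply ContinuousOn.rpow_const _ (fun _ _ => Or.inr hp.le)
    apply ContinuousOn.norm
    exact hfd.continuousOn.comp (continuous_circleMap 0 r).continuousOn
      (fun θ _ => hsub (hcm θ))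
  have hpi := Real.pi_pos
  calc ∫ θ in (0 : ℝ)..(2 * Real.pi), ‖f (r * Complex.exp (θ * Complex.I))‖ ^ p
      = ∫ θ in (0 : ℝ)..(2 * Real.pi), ‖f (circleMap 0 r θ)‖ ^ p := by
        simp only [circleMap_zero]
    _ ≤ ∫ θ in (0 : ℝ)..(2 * Real.pi), (C + U (g (circleMap 0 r θ))) := by
        apply intervalIntegral.integral_mono_on (by positivity) (hcf.intervalIntegrable _ _)
          ((continuous_const.add hcU).intervalIntegrable _ _)
        intro θ _
        have h2 := hlog _ (hsub (hcm θ))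
        rw [h2.2.1, Complex.norm_exp, ← Real.exp_mul, mul_comm]
        exact hC _ h2.1
    _ = 2 * Real.pi * C + ∫ θ in (0 : ℝ)..(2 * Real.pi), U (g (circleMap 0 r θ)) := by
        rw [intervalIntegral.integral_add (continuous_const.intervalIntegrable _ _)
          (hcU.intervalIntegrable _ _), intervalIntegral.integral_const, smul_eq_mul, sub_zero]
    _ = 2 * Real.pi * C + 2 * Real.pi * Real.circleAverage (fun z => U (g z)) 0 r := by
        rw [Real.circleAverage_def, smul_eq_mul]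
        field_simp
    _ ≤ 2 * Real.pi * C + 2 * Real.pi * U (g 0) := by
        have := mul_le_mul_of_nonneg_left h1 (show 0 ≤ 2 * Real.pi by positivity)
        linarith
    _ = 2 * Real.pi * (C + U (g 0)) := by ring

theorem hardy_up : hardyNumber (D L) = ⊤ := by
  unfold hardyNumber
  rw [sInf_eq_top]
  rintro _ ⟨f, hf, rfl⟩
  unfold hardyF
  rw [sSup_eq_top]
  intro b hb
  obtain ⟨n, hn⟩ := ENNReal.exists_nat_gt hb.ne
  refine ⟨ENNReal.ofReal (n + 1), Or.inr ⟨n + 1, by positivity, all_hardy hf (by positivity), rfl⟩, ?_⟩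
  refine hn.trans_le ?_
  rw [← ENNReal.ofReal_natCast]
  apply ENNReal.ofReal_le_ofReal
  linarith

theorem bergman_up : bergmanNumber (D L) = ⊤ := by
  unfold bergmanNumber
  rw [sInf_eq_top]
  rintro _ ⟨f, hf, rfl⟩
  unfold bergmanF
  rw [sSup_eq_top]
  intro b hb
  obtain ⟨n, hn⟩ := ENNReal.exists_nat_gt hb.ne
  refine ⟨ENNReal.ofReal ((2 * (n + 1)) / (0 + 2)), Or.inr ⟨2 * (n + 1), 0, by positivity,
    by norm_num, bergman_of_hardy hf.1.continuousOn (by positivity) (by norm_num)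
      (all_hardy hf (by positivity)), rfl⟩, ?_⟩
  refine hn.trans_le ?_
  rw [← ENNReal.ofReal_natCast]
  apply ENNReal.ofReal_le_ofReal
  rw [zero_add, mul_div_assoc, mul_comm, div_mul_cancel₀ _ (two_ne_zero)]
  linarith

theorem bergmanA_up {α : ℝ} (hα : -1 < α) : bergmanNumberA α (D L) = ⊤ := by
  unfold bergmanNumberA
  rw [sInf_eq_top]
  rintro _ ⟨f, hf, rfl⟩
  unfold bergmanAF
  rw [sSup_eq_top]
  intro b hb
  obtain ⟨n, hn⟩ := ENNReal.exists_nat_gt hb.ne
  refine ⟨ENNReal.ofReal (n + 1), Or.inr ⟨n + 1, by positivity,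
    bergman_of_hardy hf.1.continuousOn (by positivity) hα (all_hardy hf (by positivity)), rfl⟩, ?_⟩
  refine hn.trans_le ?_
  rw [← ENNReal.ofReal_natCast]
  apply ENNReal.ofReal_le_ofReal
  linarith

/-! ## Domains -/

lemma D_open (l : ℕ → ℝ) : IsOpen (D l) := Complex.isOpenMap_exp _ (isOpen_Om l)

lemma D_conn {l : ℕ → ℝ} (hl : ∀ k, 0 ≤ l k) : IsConnected (D l) :=
  (conn_Om hl).image _ Complex.continuous_exp.continuousOn

lemma D_agree : D (fun _ => 0) ∩ {z | 1 < ‖z‖} = D L ∩ {z | 1 < ‖z‖} := by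
  ext z
  constructor
  · rintro ⟨⟨w, hw, rfl⟩, hz⟩
    refine ⟨⟨w, ?_, rfl⟩, hz⟩
    have h0 : 0 < w.re := by
      rw [mem_ofPred_eq, Complex.norm_exp] at hz
      exact Real.one_lt_exp_iff.mp hz
    exact Om_right (fun _ => le_rfl) L_nonneg h0 hw
  · rintro ⟨⟨w, hw, rfl⟩, hz⟩
    refine ⟨⟨w, ?_, rfl⟩, hz⟩
    have h0 : 0 < w.re := by
      rw [mem_ofPred_eq, Complex.norm_exp] at hz
      exact Real.one_lt_exp_iff.mp hz
    exact Om_right L_nonneg (fun _ => le_rfl) h0 hw

end Pool.Agent.R229.HN
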